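import Mathlib

/-!
Hashing with random matrices over the field with two elements.
-/

set_option autoImplicit false

namespace Pool.Agent.Helper78.NX

open Finset

/-- hash matrices -/
abbrev Gm (l L : ℕ) : Type := Fin l → Fin L → ZMod 2

variable {l L : ℕ} {Ω : Type} [Fintype Ω]

/-- the hash value -/
def hsh (code : Ω → Fin L → ZMod 2) (g : Gm l L) (z : Ω) : Fin l → ZMod 2 :=
  fun i => ∑ j, g i j * code z j

theorem card_row {v : Fin L → ZMod 2} (hv : v ≠ 0) :
    2 * ((univ : Finset (Fin L → ZMod 2)).filter fun a => ∑ j, a j * v j = 0).card = 2 ^ L := by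
  classical
  obtain ⟨j0, hj0⟩ := Function.ne_iff.1 hv
  have hj1 : v j0 = 1 := by
    have : ∀ c : ZMod 2, c ≠ 0 → c = 1 := by decide
    exact this _ hj0
  have hsh : ∀ a : Fin L → ZMod 2,
      ∑ j, (a + Pi.single j0 1 : Fin L → ZMod 2) j * v j = ∑ j, a j * v j + 1 := by
    intro a
    simp only [Pi.add_apply, add_mul, Finset.sum_add_distrib]
    congr 1
    rw [Finset.sum_eq_single j0]
    · simp [hj1]
    · intro b _ hb
      simp [hb]
    · intro h; exact absurd (Finset.mem_univ _) h
  have h1 : ((univ : Finset (Fin L → ZMod 2)).filter fun a => ∑ j, a j * v j = 0).card =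
      ((univ : Finset (Fin L → ZMod 2)).filter fun a => ¬ ∑ j, a j * v j = 0).card := by
    refine Finset.card_bij (fun a _ => a + Pi.single j0 1) ?_ ?_ ?_
    · intro a ha
      rw [Finset.mem_filter] at ha ⊢
      refine ⟨Finset.mem_univ _, ?_⟩
      rw [hsh, ha.2]
      decide
    · intro a _ b _ h
      exact add_right_cancel h
    · intro b hb
      rw [Finset.mem_filter] at hb
      refine ⟨b + Pi.single j0 1, ?_, ?_⟩
      · rw [Finset.mem_filter]
        refine ⟨Finset.mem_univ _, ?_⟩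
        rw [hsh]
        have : ∀ c : ZMod 2, c ≠ 0 → c + 1 = 0 := by decide
        exact this _ hb.2
      · rw [add_assoc, ← Pi.single_add]
        have : (1 : ZMod 2) + 1 = 0 := by decide
        rw [this, Pi.single_zero, add_zero]
  have h2 := Finset.card_filter_add_card_filter_not (s := (univ : Finset (Fin L → ZMod 2)))
    (fun a => ∑ j, a j * v j = 0)
  rw [Finset.card_univ] at h2
  have h3 : Fintype.card (Fin L → ZMod 2) = 2 ^ L := by simp [ZMod.card]
  omega

theorem card_col {v : Fin L → ZMod 2} (hv : v ≠ 0) :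
    2 ^ l * ((univ : Finset (Gm l L)).filter fun g => ∀ i, ∑ j, g i j * v j = 0).card =
      Fintype.card (Gm l L) := by
  classical
  have h1 : ((univ : Finset (Gm l L)).filter fun g => ∀ i, ∑ j, g i j * v j = 0) =
      Fintype.piFinset fun _ : Fin l =>
        (univ : Finset (Fin L → ZMod 2)).filter fun a => ∑ j, a j * v j = 0 := by
    ext g
    simp [Fintype.mem_piFinset]
  rw [h1, Fintype.card_piFinset, Finset.prod_const, Finset.card_univ, Fintype.card_fin, ← mul_pow,
    card_row hv]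
  simp [ZMod.card]

omit [Fintype Ω] in
theorem col_real {code : Ω → Fin L → ZMod 2} (hc : Function.Injective code) {z z' : Ω}
    (h : z ≠ z') :
    ∑ g : Gm l L, (if hsh code g z = hsh code g z' then (1 : ℝ) else 0) =
      (Fintype.card (Gm l L) : ℝ) / 2 ^ l := by
  have hv : code z - code z' ≠ 0 := fun h' => h (hc (sub_eq_zero.1 h'))
  have := card_col (l := l) hv
  rw [Finset.sum_boole, eq_div_iff (by positivity), ← this]
  push_cast
  rw [mul_comm]
  congr 2
  congr 1
  ext g
  simp only [Finset.mem_filter, Finset.mem_univ, true_and]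
  rw [funext_iff]
  refine forall_congr' fun i => ?_
  simp only [hsh, Pi.sub_apply, mul_sub, Finset.sum_sub_distrib]
  exact sub_eq_zero.symm

/-- the distribution of the matrix together with the hash value -/
noncomputable def hp (code : Ω → Fin L → ZMod 2) (Q : Ω → ℝ) (o : Gm l L × (Fin l → ZMod 2)) : ℝ :=
  (∑ z, if hsh code o.1 z = o.2 then Q z else 0) / Fintype.card (Gm l L)

theorem hp_sum (code : Ω → Fin L → ZMod 2) (Q : Ω → ℝ) :
    ∑ o, hp (l := l) code Q o = ∑ z, Q z := by
  classical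
  unfold hp
  rw [← Finset.sum_div, div_eq_iff (by positivity), Fintype.sum_prod_type]
  have : ∀ g : Gm l L, ∑ s : Fin l → ZMod 2, ∑ z, (if hsh code g z = s then Q z else 0) =
      ∑ z, Q z := by
    intro g
    rw [Finset.sum_comm]
    refine Finset.sum_congr rfl fun z _ => ?_
    simp
  simp only [this]
  rw [Finset.sum_const, Finset.card_univ, nsmul_eq_mul]
  ring

theorem hp_nonneg (code : Ω → Fin L → ZMod 2) {Q : Ω → ℝ} (hQ : ∀ z, 0 ≤ Q z)
    (o : Gm l L × (Fin l → ZMod 2)) : 0 ≤ hp code Q o := by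
  unfold hp
  refine div_nonneg (Finset.sum_nonneg fun z _ => ?_) (by positivity)
  split_ifs
  · exact hQ z
  · exact le_rfl

theorem hp_sq {code : Ω → Fin L → ZMod 2} (hc : Function.Injective code) {Q : Ω → ℝ}
    (hQ : ∀ z, 0 ≤ Q z) :
    ∑ o, hp (l := l) code Q o ^ 2 ≤
      (∑ z, Q z ^ 2 + (∑ z, Q z) ^ 2 / 2 ^ l) / Fintype.card (Gm l L) := by
  classical
  set W : ℝ := (Fintype.card (Gm l L) : ℝ) with hW
  have hW0 : 0 < W := by rw [hW]; positivity
  have h1 : ∑ o, hp (l := l) code Q o ^ 2 =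
      (∑ g : Gm l L, ∑ z, ∑ z', Q z * Q z' * if hsh code g z = hsh code g z' then (1 : ℝ) else 0) /
        W ^ 2 := by
    unfold hp
    rw [Fintype.sum_prod_type, Finset.sum_div]
    refine Finset.sum_congr rfl fun g _ => ?_
    simp only [div_pow]
    rw [← Finset.sum_div]
    congr 1
    simp only [sq, Finset.sum_mul_sum]
    rw [Finset.sum_comm]
    refine Finset.sum_congr rfl fun z _ => ?_
    rw [Finset.sum_comm]
    refine Finset.sum_congr rfl fun z' _ => ?_
    rw [Finset.sum_eq_single (hsh code g z)]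
    · by_cases h : hsh code g z = hsh code g z'
      · simp [h]
      · simp [h, Ne.symm h]
    · intro s _ hs
      rw [if_neg (Ne.symm hs), zero_mul]
    · intro h; exact absurd (Finset.mem_univ _) h
  have h2 : ∑ g : Gm l L, ∑ z, ∑ z', Q z * Q z' *
      (if hsh code g z = hsh code g z' then (1 : ℝ) else 0) ≤
      W * (∑ z, Q z ^ 2 + (∑ z, Q z) ^ 2 / 2 ^ l) := by
    have e1 : ∑ g : Gm l L, ∑ z, ∑ z', Q z * Q z' *
        (if hsh code g z = hsh code g z' then (1 : ℝ) else 0) =
        ∑ z, ∑ z', Q z * Q z' *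
          ∑ g : Gm l L, (if hsh code g z = hsh code g z' then (1 : ℝ) else 0) := by
      rw [Finset.sum_comm]
      refine Finset.sum_congr rfl fun z _ => ?_
      rw [Finset.sum_comm]
      refine Finset.sum_congr rfl fun z' _ => ?_
      rw [Finset.mul_sum]
    have e2 : ∀ z z', Q z * Q z' *
        ∑ g : Gm l L, (if hsh code g z = hsh code g z' then (1 : ℝ) else 0) ≤
        W * ((if z = z' then Q z ^ 2 else 0) + Q z * Q z' / 2 ^ l) := by
      intro z z'
      by_cases h : z = z'
      · subst h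
        simp only [if_true, Finset.sum_const, Finset.card_univ, nsmul_eq_mul, mul_one]
        rw [← hW]
        have : 0 ≤ W * (Q z * Q z / 2 ^ l) :=
          mul_nonneg hW0.le (div_nonneg (mul_nonneg (hQ z) (hQ z)) (by positivity))
        nlinarith
      · rw [col_real hc h, if_neg h, ← hW]
        apply le_of_eq
        ring
    rw [e1]
    calc _ ≤ ∑ z, ∑ z', W * ((if z = z' then Q z ^ 2 else 0) + Q z * Q z' / 2 ^ l) :=
          Finset.sum_le_sum fun z _ => Finset.sum_le_sum fun z' _ => e2 z z'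
      _ = W * (∑ z, Q z ^ 2 + (∑ z, Q z) ^ 2 / 2 ^ l) := by
          simp only [← Finset.mul_sum, Finset.sum_add_distrib, Finset.sum_ite_eq,
            Finset.mem_univ, if_true]
          congr 2
          rw [sq, Finset.sum_mul_sum, Finset.sum_div]
          refine Finset.sum_congr rfl fun z _ => ?_
          rw [Finset.sum_div]
  rw [h1, div_le_div_iff₀ (by positivity) hW0]
  nlinarith

theorem hash_near {code : Ω → Fin L → ZMod 2} (hc : Function.Injective code) {Q : Ω → ℝ}
    (hQ : ∀ z, 0 ≤ Q z) {B : ℝ} (hB0 : 0 ≤ B) (hB : ∀ z, Q z ≤ B) (hq : ∑ z, Q z ≤ 1) :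
    ∑ o, |hp (l := l) code Q o - (∑ z, Q z) / (Fintype.card (Gm l L) * 2 ^ l)| ≤ √(2 ^ l * B) := by
  classical
  set W : ℝ := (Fintype.card (Gm l L) : ℝ) with hW
  have hW0 : 0 < W := by rw [hW]; positivity
  set q := ∑ z, Q z with hqd
  have hcard : (Fintype.card (Gm l L × (Fin l → ZMod 2)) : ℝ) = W * 2 ^ l := by
    rw [Fintype.card_prod]
    push_cast
    rw [← hW]
    congr 1
    simp [ZMod.card]
  have h1 : ∑ o, (hp (l := l) code Q o - q / (W * 2 ^ l)) ^ 2 =
      ∑ o, hp (l := l) code Q o ^ 2 - q ^ 2 / (W * 2 ^ l) := by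
    have : ∀ o, (hp (l := l) code Q o - q / (W * 2 ^ l)) ^ 2 = hp (l := l) code Q o ^ 2 -
        2 * (q / (W * 2 ^ l)) * hp (l := l) code Q o + (q / (W * 2 ^ l)) ^ 2 := by
      intro o; ring
    simp only [this, Finset.sum_add_distrib, Finset.sum_sub_distrib, ← Finset.mul_sum, hp_sum]
    rw [Finset.sum_const, Finset.card_univ, nsmul_eq_mul, hcard, ← hqd]
    field_simp
    ring
  have h2 := hp_sq (l := l) hc hQ
  rw [← hW, ← hqd] at h2
  have h3 : ∑ z, Q z ^ 2 ≤ B := by
    have : ∀ z, Q z ^ 2 ≤ B * Q z := fun z => by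
      rw [sq]; exact mul_le_mul_of_nonneg_right (hB z) (hQ z)
    calc _ ≤ ∑ z, B * Q z := Finset.sum_le_sum fun z _ => this z
      _ = B * q := by rw [← Finset.mul_sum]
      _ ≤ B := mul_le_of_le_one_right hB0 hq
  have h4 : ∑ o, (hp (l := l) code Q o - q / (W * 2 ^ l)) ^ 2 ≤ B / W := by
    rw [h1]
    have : (∑ z, Q z ^ 2 + q ^ 2 / 2 ^ l) / W = (∑ z, Q z ^ 2) / W + q ^ 2 / (W * 2 ^ l) := by
      field_simp
    rw [this] at h2
    have : (∑ z, Q z ^ 2) / W ≤ B / W := div_le_div_of_nonneg_right h3 hW0.le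
    linarith
  have h6 : (∑ o, |hp (l := l) code Q o - q / (W * 2 ^ l)|) ^ 2 ≤ 2 ^ l * B := by
    have := sq_sum_le_card_mul_sum_sq
      (s := (univ : Finset (Gm l L × (Fin l → ZMod 2))))
      (f := fun o => |hp (l := l) code Q o - q / (W * 2 ^ l)|)
    simp only [sq_abs] at this
    rw [Finset.card_univ, hcard] at this
    refine this.trans ?_
    calc W * 2 ^ l * ∑ o, (hp (l := l) code Q o - q / (W * 2 ^ l)) ^ 2 ≤
        W * 2 ^ l * (B / W) := mul_le_mul_of_nonneg_left h4 (by positivity)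
      _ = 2 ^ l * B := by field_simp
  exact Real.le_sqrt_of_sq_le h6

theorem card_Gm : (Fintype.card (Gm l L) : ℝ) * 2 ^ l = 2 ^ (l * L + l) := by
  have : Fintype.card (Gm l L) = 2 ^ (l * L) := by
    simp [ZMod.card, ← pow_mul, mul_comm]
  rw [this]
  push_cast
  rw [← pow_add]

theorem near {code : Ω → Fin L → ZMod 2} (hc : Function.Injective code) {P : Ω → ℝ}
    (hP0 : ∀ z, 0 ≤ P z) (hP1 : ∑ z, P z = 1) {B η : ℝ} (hB0 : 0 ≤ B)
    (h : 1 - η ≤ ∑ z, if P z ≤ B then P z else 0) :
    1 / 2 * ∑ o, |hp (l := l) code P o - 1 / 2 ^ (l * L + l)| ≤ η + √(2 ^ l * B) / 2 := by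
  classical
  set Q : Ω → ℝ := fun z => if P z ≤ B then P z else 0 with hQ
  have hQ0 : ∀ z, 0 ≤ Q z := by
    intro z
    simp only [hQ]
    split_ifs
    · exact hP0 z
    · exact le_rfl
  have hQP : ∀ z, Q z ≤ P z := by
    intro z
    simp only [hQ]
    split_ifs
    · exact le_rfl
    · exact hP0 z
  have hQB : ∀ z, Q z ≤ B := by
    intro z
    simp only [hQ]
    split_ifs with h
    · exact h
    · exact hB0
  have hq1 : ∑ z, Q z ≤ 1 := by
    rw [← hP1]; exact Finset.sum_le_sum fun z _ => hQP z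
  have key := hash_near (l := l) hc hQ0 hB0 hQB hq1
  rw [card_Gm] at key
  set q := ∑ z, Q z with hq
  have hW : (0 : ℝ) < 2 ^ (l * L + l) := by positivity
  have hpt : ∀ o, |hp (l := l) code P o - 1 / 2 ^ (l * L + l)| ≤
      |hp (l := l) code Q o - q / 2 ^ (l * L + l)| + (hp (l := l) code P o - hp (l := l) code Q o) +
        (1 - q) / 2 ^ (l * L + l) := by
    intro o
    have h1 : hp (l := l) code Q o ≤ hp (l := l) code P o := by
      unfold hp
      refine div_le_div_of_nonneg_right (Finset.sum_le_sum fun z _ => ?_) (by positivity)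
      split_ifs
      · exact hQP z
      · exact le_rfl
    have h2 : 0 ≤ (1 - q) / 2 ^ (l * L + l) := div_nonneg (by linarith) hW.le
    have h3 : hp (l := l) code P o - 1 / 2 ^ (l * L + l) =
        (hp (l := l) code Q o - q / 2 ^ (l * L + l)) +
          (hp (l := l) code P o - hp (l := l) code Q o) - (1 - q) / 2 ^ (l * L + l) := by ring
    rw [h3]
    calc _ ≤ |(hp (l := l) code Q o - q / 2 ^ (l * L + l)) +
          (hp (l := l) code P o - hp (l := l) code Q o)| + |(1 - q) / 2 ^ (l * L + l)| :=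
          abs_sub _ _
      _ ≤ _ := by
        rw [abs_of_nonneg h2]
        have := abs_add_le (hp (l := l) code Q o - q / 2 ^ (l * L + l))
          (hp (l := l) code P o - hp (l := l) code Q o)
        rw [abs_of_nonneg (sub_nonneg.2 h1)] at this
        linarith
  have hcard : (Fintype.card (Gm l L × (Fin l → ZMod 2)) : ℝ) = 2 ^ (l * L + l) := by
    rw [Fintype.card_prod, ← card_Gm]
    push_cast
    congr 1
    simp [ZMod.card]
  have hsum := Finset.sum_le_sum fun o (_ : o ∈ (univ : Finset (Gm l L × (Fin l → ZMod 2)))) =>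
    hpt o
  rw [Finset.sum_add_distrib, Finset.sum_add_distrib, Finset.sum_sub_distrib, hp_sum, hp_sum,
    Finset.sum_const, Finset.card_univ, nsmul_eq_mul, hcard, hP1, ← hq] at hsum
  have e1 : (2 : ℝ) ^ (l * L + l) * ((1 - q) / 2 ^ (l * L + l)) = 1 - q := by
    field_simp
  rw [e1] at hsum
  linarith

theorem tv_ge {O : Type} [Fintype O] (p : O → ℝ) (u : ℝ) (h : ∑ o, (p o - u) = 0)
    (S : Finset O) : ∑ o ∈ S, (p o - u) ≤ 1 / 2 * ∑ o, |p o - u| := by
  classical
  have h1 := Finset.sum_add_sum_compl S (fun o => p o - u)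
  have h2 := Finset.sum_add_sum_compl S (fun o => |p o - u|)
  have h3 : ∑ o ∈ S, (p o - u) ≤ ∑ o ∈ S, |p o - u| := Finset.sum_le_sum fun o _ => le_abs_self _
  have h4 : -∑ o ∈ Sᶜ, (p o - u) ≤ ∑ o ∈ Sᶜ, |p o - u| := by
    rw [← Finset.sum_neg_distrib]
    exact Finset.sum_le_sum fun o _ => neg_le_abs _
  linarith

theorem far (code : Ω → Fin L → ZMod 2) {P : Ω → ℝ}
    (hP0 : ∀ z, 0 ≤ P z) (hP1 : ∑ z, P z = 1) {b η : ℝ} (hb0 : 0 < b)
    (h : 1 - η ≤ ∑ z, if b ≤ P z then P z else 0) :
    1 - η - 1 / (b * 2 ^ l) ≤ 1 / 2 * ∑ o, |hp (l := l) code P o - 1 / 2 ^ (l * L + l)| := by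
  classical
  set A : Finset Ω := univ.filter fun z => b ≤ P z with hA
  have hAsum : (∑ z, if b ≤ P z then P z else 0) = ∑ z ∈ A, P z := by
    rw [hA, Finset.sum_filter]
  have hAcard : (A.card : ℝ) ≤ 1 / b := by
    rw [le_div_iff₀ hb0]
    calc (A.card : ℝ) * b = ∑ z ∈ A, b := by rw [Finset.sum_const, nsmul_eq_mul]
      _ ≤ ∑ z ∈ A, P z := Finset.sum_le_sum fun z hz => (Finset.mem_filter.1 hz).2
      _ ≤ ∑ z, P z := Finset.sum_le_sum_of_subset_of_nonneg (Finset.subset_univ _)
          fun z _ _ => hP0 z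
      _ = 1 := hP1
  set S : Finset (Gm l L × (Fin l → ZMod 2)) :=
    (univ ×ˢ A).image fun p => (p.1, hsh code p.1 p.2) with hS
  have hScard : (S.card : ℝ) ≤ Fintype.card (Gm l L) * A.card := by
    have : S.card ≤ (univ ×ˢ A : Finset (Gm l L × Ω)).card := Finset.card_image_le
    rw [Finset.card_product, Finset.card_univ] at this
    exact_mod_cast this
  have hSP : ∑ z ∈ A, P z ≤ ∑ o ∈ S, hp (l := l) code P o := by
    have hle : ∀ o ∈ S, (∑ z ∈ A, if hsh code o.1 z = o.2 then P z else 0) /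
        Fintype.card (Gm l L) ≤ hp (l := l) code P o := by
      intro o _
      unfold hp
      refine div_le_div_of_nonneg_right ?_ (by positivity)
      refine Finset.sum_le_sum_of_subset_of_nonneg (Finset.subset_univ _) fun z _ _ => ?_
      split_ifs
      · exact hP0 z
      · exact le_rfl
    refine le_trans ?_ (Finset.sum_le_sum hle)
    rw [← Finset.sum_div, Finset.sum_comm, le_div_iff₀ (by positivity), Finset.sum_mul]
    refine Finset.sum_le_sum fun z hz => ?_
    have : ∑ o ∈ S, (if hsh code o.1 z = o.2 then P z else 0) ≥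
        ∑ o ∈ (univ : Finset (Gm l L)).image (fun g => (g, hsh code g z)),
          (if hsh code o.1 z = o.2 then P z else 0) := by
      refine Finset.sum_le_sum_of_subset_of_nonneg ?_ fun o _ _ => ?_
      · intro o ho
        rw [Finset.mem_image] at ho
        obtain ⟨g, _, rfl⟩ := ho
        rw [hS, Finset.mem_image]
        exact ⟨(g, z), Finset.mem_product.2 ⟨Finset.mem_univ _, hz⟩, rfl⟩
      · split_ifs
        · exact hP0 z
        · exact le_rfl
    refine le_trans ?_ this
    rw [Finset.sum_image]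
    · simp only [if_true, Finset.sum_const, Finset.card_univ, nsmul_eq_mul]
      rw [mul_comm]
    · intro g _ g' _ hgg
      exact (Prod.mk.inj hgg).1
  have hcard : (Fintype.card (Gm l L × (Fin l → ZMod 2)) : ℝ) = 2 ^ (l * L + l) := by
    rw [Fintype.card_prod, ← card_Gm]
    push_cast
    congr 1
    simp [ZMod.card]
  have hzero : ∑ o : Gm l L × (Fin l → ZMod 2), (hp (l := l) code P o - 1 / 2 ^ (l * L + l)) = 0 := by
    rw [Finset.sum_sub_distrib, hp_sum, hP1, Finset.sum_const, Finset.card_univ, nsmul_eq_mul,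
      hcard]
    field_simp
    norm_num
  have key := tv_ge _ _ hzero S
  rw [Finset.sum_sub_distrib, Finset.sum_const, nsmul_eq_mul] at key
  rw [hAsum] at h
  have h5 : (S.card : ℝ) * (1 / 2 ^ (l * L + l)) ≤ 1 / (b * 2 ^ l) := by
    rw [← card_Gm]
    have hW0 : (0 : ℝ) < Fintype.card (Gm l L) := by positivity
    rw [mul_one_div, div_le_div_iff₀ (by positivity) (by positivity), one_mul]
    calc (S.card : ℝ) * (b * 2 ^ l) ≤ (Fintype.card (Gm l L) * A.card) * (b * 2 ^ l) :=
          mul_le_mul_of_nonneg_right hScard (by positivity)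
      _ = (A.card * b) * (Fintype.card (Gm l L) * 2 ^ l) := by ring
      _ ≤ 1 * (Fintype.card (Gm l L) * 2 ^ l) := by
          refine mul_le_mul_of_nonneg_right ?_ (by positivity)
          rw [← le_div_iff₀ hb0]; exact hAcard
      _ = _ := one_mul _
  linarith

end Pool.Agent.Helper78.NX
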