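import Mathlib

/-!
Product distributions.
-/

set_option autoImplicit false

namespace Pool.Agent.Helper78.NX

open Finset

variable {Z : Type} [Fintype Z]

theorem sum_pi {T : ℕ} (h : Fin T → Z → ℝ) :
    ∑ z : Fin T → Z, ∏ u, h u (z u) = ∏ u, ∑ z, h u z := by
  classical
  rw [Finset.prod_univ_sum, Fintype.piFinset_univ]

theorem sum_pi_one {T : ℕ} {P : Z → ℝ} (hP1 : ∑ z, P z = 1) :
    ∑ z : Fin T → Z, ∏ u, P (z u) = 1 := by
  rw [sum_pi (fun _ => P)]
  simp [hP1]

theorem moment {T : ℕ} {P g : Z → ℝ} (hP1 : ∑ z, P z = 1) (hg : ∑ z, P z * g z = 0) :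
    ∑ z : Fin T → Z, (∏ u, P (z u)) * (∑ t, g (z t)) ^ 2 = T * ∑ z, P z * g z ^ 2 := by
  classical
  have h1 : ∀ s t : Fin T, ∑ z : Fin T → Z, (∏ u, P (z u)) * (g (z s) * g (z t)) =
      if s = t then ∑ z, P z * g z ^ 2 else 0 := by
    intro s t
    have e1 : ∀ z : Fin T → Z, (∏ u, P (z u)) * (g (z s) * g (z t)) =
        ∏ u, (P (z u) * ((if u = s then g (z u) else 1) * (if u = t then g (z u) else 1))) := by
      intro z
      rw [Finset.prod_mul_distrib, Finset.prod_mul_distrib]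
      congr 2
      · simp
      · simp
    simp only [e1]
    rw [sum_pi fun u z => P z * ((if u = s then g z else 1) * (if u = t then g z else 1))]
    split_ifs with h
    · subst h
      rw [← Finset.mul_prod_erase univ _ (Finset.mem_univ s)]
      rw [Finset.prod_eq_one]
      · simp [sq]
      · intro u hu
        rw [Finset.mem_erase] at hu
        simp [hu.1, hP1]
    · refine Finset.prod_eq_zero (Finset.mem_univ s) ?_
      simp [h, hg]
  have h2 : ∀ z : Fin T → Z, (∏ u, P (z u)) * (∑ t, g (z t)) ^ 2 =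
      ∑ s, ∑ t, (∏ u, P (z u)) * (g (z s) * g (z t)) := by
    intro z
    rw [sq, Finset.sum_mul_sum, Finset.mul_sum]
    refine Finset.sum_congr rfl fun s _ => ?_
    rw [Finset.mul_sum]
  simp only [h2]
  rw [Finset.sum_comm]
  have h3 : ∀ s : Fin T, ∑ z : Fin T → Z, ∑ t, (∏ u, P (z u)) * (g (z s) * g (z t)) =
      ∑ z, P z * g z ^ 2 := by
    intro s
    rw [Finset.sum_comm]
    simp only [h1]
    simp
  simp only [h3]
  simp

theorem cheb {T : ℕ} (hT : 0 < T) {P f : Z → ℝ} (hP0 : ∀ z, 0 ≤ P z) (hP1 : ∑ z, P z = 1)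
    {μ v η : ℝ} (hμ : ∑ z, P z * f z = μ) (hv : ∑ z, P z * (f z - μ) ^ 2 ≤ v) (hη : 0 < η) :
    1 - v / (T * η ^ 2) ≤ ∑ z : Fin T → Z,
      if |∑ t, f (z t) - T * μ| ≤ T * η then ∏ u, P (z u) else 0 := by
  classical
  have hT' : (0 : ℝ) < T := by exact_mod_cast hT
  have hg : ∑ z, P z * (f z - μ) = 0 := by
    simp only [mul_sub, Finset.sum_sub_distrib, ← Finset.sum_mul, hP1, hμ]
    ring
  have hm := moment (T := T) hP1 hg
  have hprod0 : ∀ z : Fin T → Z, 0 ≤ ∏ u, P (z u) := fun z => Finset.prod_nonneg fun u _ => hP0 _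
  have h1 : ∑ z : Fin T → Z, (if |∑ t, f (z t) - T * μ| ≤ T * η then 0 else ∏ u, P (z u)) ≤
      v / (T * η ^ 2) := by
    rw [le_div_iff₀ (by positivity)]
    have h2 : (∑ z : Fin T → Z, (if |∑ t, f (z t) - T * μ| ≤ T * η then 0 else ∏ u, P (z u))) *
        (T * η) ^ 2 ≤ T * v := by
      calc _ = ∑ z : Fin T → Z, (if |∑ t, f (z t) - T * μ| ≤ T * η then 0 else ∏ u, P (z u)) *
            (T * η) ^ 2 := by rw [Finset.sum_mul]
        _ ≤ ∑ z : Fin T → Z, (∏ u, P (z u)) * (∑ t, (f (z t) - μ)) ^ 2 := by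
            refine Finset.sum_le_sum fun z _ => ?_
            have e : ∑ t, (f (z t) - μ) = ∑ t, f (z t) - T * μ := by
              rw [Finset.sum_sub_distrib]; simp
            rw [e]
            split_ifs with h
            · rw [zero_mul]
              exact mul_nonneg (hprod0 z) (sq_nonneg _)
            · push Not at h
              refine mul_le_mul_of_nonneg_left ?_ (hprod0 z)
              rw [← sq_abs (∑ t, f (z t) - T * μ)]
              exact pow_le_pow_left₀ (by positivity) h.le 2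
        _ = T * ∑ z, P z * (f z - μ) ^ 2 := hm
        _ ≤ T * v := mul_le_mul_of_nonneg_left hv hT'.le
    have h3 : (T : ℝ) * ((∑ z : Fin T → Z,
        (if |∑ t, f (z t) - T * μ| ≤ T * η then 0 else ∏ u, P (z u))) * (T * η ^ 2)) ≤ T * v := by
      calc _ = (∑ z : Fin T → Z,
          (if |∑ t, f (z t) - T * μ| ≤ T * η then 0 else ∏ u, P (z u))) * (T * η) ^ 2 := by ring
        _ ≤ _ := h2
    exact le_of_mul_le_mul_left h3 hT'
  have h4 : ∑ z : Fin T → Z, (if |∑ t, f (z t) - T * μ| ≤ T * η then ∏ u, P (z u) else 0) +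
      ∑ z : Fin T → Z, (if |∑ t, f (z t) - T * μ| ≤ T * η then 0 else ∏ u, P (z u)) = 1 := by
    rw [← Finset.sum_add_distrib, ← sum_pi_one (T := T) hP1]
    refine Finset.sum_congr rfl fun z _ => ?_
    split_ifs <;> simp
  linarith

end Pool.Agent.Helper78.NX
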