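import Pool.Agent.Helper78.NX.Tr
import Pool.Agent.Helper78.NX.Hash
import Pool.Agent.Helper78.NX.Prod

/-!
Amplification: from a gap of entropies to a protocol.
-/

set_option autoImplicit false

namespace Pool.Agent.Helper78.NX

open Finset

theorem bits (n : ℕ) (hn : 1 ≤ n) : n ≤ 2 ^ Nat.clog 2 n ∧
    (Nat.clog 2 n : ℝ) ≤ 2 * Real.log n + 1 := by
  refine ⟨Nat.le_pow_clog (by norm_num) n, ?_⟩
  rcases Nat.lt_or_ge 1 n with h | h
  · have h1 := Nat.pow_pred_clog_lt_self (b := 2) (by norm_num) h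
    have h2 : (2 : ℝ) ^ (Nat.clog 2 n).pred < n := by exact_mod_cast h1
    have h3 := Real.log_lt_log (by positivity) h2
    rw [Real.log_pow] at h3
    have h4 : (Nat.clog 2 n : ℝ) ≤ ((Nat.clog 2 n).pred : ℝ) + 1 := by
      have : Nat.clog 2 n ≤ (Nat.clog 2 n).pred + 1 := by
        rw [Nat.pred_eq_sub_one]; omega
      exact_mod_cast this
    have h5 := Real.log_two_gt_d9
    have h6 : (0 : ℝ) ≤ ((Nat.clog 2 n).pred : ℝ) := Nat.cast_nonneg _
    nlinarith
  · have h1 : n = 1 := le_antisymm h hn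
    subst h1
    simp

/-- the product of the probabilities on the typical set -/
theorem prod_le {Z : Type} {T : ℕ} {N : Z → ℕ} {M : ℝ} (hM : 0 < M) (z : Fin T → Z) {c : ℝ}
    (h : ∑ t, Real.log (N (z t)) ≤ c) :
    ∏ t, (N (z t) : ℝ) / M ≤ Real.exp (c - T * Real.log M) := by
  by_cases h0 : ∀ t, N (z t) ≠ 0
  · have hpos : ∀ t, (0 : ℝ) < N (z t) / M := fun t =>
      div_pos (by exact_mod_cast Nat.pos_of_ne_zero (h0 t)) hM
    rw [← Real.log_le_iff_le_exp (Finset.prod_pos fun t _ => hpos t),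
      Real.log_prod (fun t _ => (hpos t).ne')]
    have : ∀ t, Real.log ((N (z t) : ℝ) / M) = Real.log (N (z t)) - Real.log M := fun t =>
      Real.log_div (by exact_mod_cast h0 t) hM.ne'
    simp only [this, Finset.sum_sub_distrib]
    simp
    exact h
  · push Not at h0
    obtain ⟨t, ht⟩ := h0
    rw [Finset.prod_eq_zero (Finset.mem_univ t) (by rw [ht]; simp)]
    exact (Real.exp_pos _).le

theorem le_prod {Z : Type} {T : ℕ} {N : Z → ℕ} {M : ℝ} (hM : 0 < M) (z : Fin T → Z) {c : ℝ}
    (h : c ≤ ∑ t, Real.log (N (z t))) (h0 : ∏ t, (N (z t) : ℝ) / M ≠ 0) :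
    Real.exp (c - T * Real.log M) ≤ ∏ t, (N (z t) : ℝ) / M := by
  have h1 : ∀ t, N (z t) ≠ 0 := by
    intro t ht
    exact h0 (Finset.prod_eq_zero (Finset.mem_univ t) (by rw [ht]; simp))
  have hpos : ∀ t, (0 : ℝ) < N (z t) / M := fun t =>
    div_pos (by exact_mod_cast Nat.pos_of_ne_zero (h1 t)) hM
  rw [← Real.le_log_iff_exp_le (Finset.prod_pos fun t _ => hpos t),
    Real.log_prod (fun t _ => (hpos t).ne')]
  have : ∀ t, Real.log ((N (z t) : ℝ) / M) = Real.log (N (z t)) - Real.log M := fun t =>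
    Real.log_div (by exact_mod_cast h1 t) hM.ne'
  simp only [this, Finset.sum_sub_distrib]
  simp
  exact h

theorem exists_l {δ b : ℝ} (hδ : 0 < δ) (hb : 0 < b) (hb4 : b ≤ 4 / δ) :
    ∃ l : ℕ, 2 / (δ * b) ≤ 2 ^ l ∧ (2 : ℝ) ^ l ≤ 4 / (δ * b) := by
  classical
  have hex : ∃ l : ℕ, 2 / (δ * b) ≤ (2 : ℝ) ^ l := by
    obtain ⟨l, hl⟩ := pow_unbounded_of_one_lt (2 / (δ * b)) (by norm_num : (1 : ℝ) < 2)
    exact ⟨l, hl.le⟩
  refine ⟨Nat.find hex, Nat.find_spec hex, ?_⟩
  rcases Nat.eq_zero_or_pos (Nat.find hex) with h | h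
  · rw [h, pow_zero, le_div_iff₀ (by positivity), one_mul]
    rw [le_div_iff₀ hδ] at hb4
    linarith
  · have := Nat.find_min hex (Nat.sub_lt h one_pos)
    push Not at this
    have e : (2 : ℝ) ^ Nat.find hex = 2 * 2 ^ (Nat.find hex - 1) := by
      rw [← pow_succ']
      congr 1
      omega
    rw [e]
    have e2 : (4 : ℝ) / (δ * b) = 2 * (2 / (δ * b)) := by ring
    rw [e2]
    linarith

theorem amplify (r : ℕ) (hr : 1 ≤ r) (G : Bool → ℝ) (hgap : G true < G false)
    (hG : G false ≤ Real.log r) (δ : ℝ) (hδ : 0 < δ) (hδ1 : δ ≤ 1) :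
    ∃ C : ℝ, 0 ≤ C ∧ ∀ (X Y A Z : Type) [Fintype A] [Fintype Z] [Nonempty A] [Nonempty Z] (M : ℝ),
      (r : ℝ) ≤ M → ∀ (α : X → A → ℝ) (β : Y → A → Z → ℝ), (∀ x a, 0 ≤ α x a) →
      (∀ x, ∑ a, α x a = 1) → (∀ y a z, 0 ≤ β y a z) → (∀ y a, ∑ z, β y a z = 1) →
      ∀ (f : X → Y → Bool) (N : X → Y → Z → ℕ),
      (∀ x y z, ∑ a, α x a * β y a z = N x y z / M) → (∀ x y z, N x y z ≤ r) →
      (∀ x y, ∑ z, (N x y z : ℝ) / M * Real.log (N x y z) = G (f x y)) →
      ∃ k : ℕ, (k : ℝ) ≤ C * (1 + Real.log (Fintype.card A) + Real.log (Fintype.card Z) +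
        Real.log M) ^ 2 ∧ ∃ P : OneWay X Y k, P.Solves δ f := by
  classical
  set g := G false - G true with hg
  have hg0 : 0 < g := by rw [hg]; linarith
  set η := g / 4 with hη
  have hη0 : 0 < η := by rw [hη]; linarith
  set v := Real.log r ^ 2 with hv
  have hr1 : (1 : ℝ) ≤ r := by exact_mod_cast hr
  have hlr : 0 ≤ Real.log r := Real.log_nonneg hr1
  -- the number of copies
  obtain ⟨T, hT0, hT1, hT2⟩ : ∃ T : ℕ, 0 < T ∧ v / (T * η ^ 2) ≤ δ / 2 ∧
      4 / δ ^ 3 ≤ Real.exp (T * g / 2) := by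
    obtain ⟨T, hT⟩ := exists_nat_gt (max 1 (max (2 * v / (δ * η ^ 2)) (8 / (g * δ ^ 3))))
    have hT1 : (1 : ℝ) < T := (le_max_left _ _).trans_lt hT
    have hTa : 2 * v / (δ * η ^ 2) < T := ((le_max_left _ _).trans (le_max_right _ _)).trans_lt hT
    have hTb : 8 / (g * δ ^ 3) < T := ((le_max_right _ _).trans (le_max_right _ _)).trans_lt hT
    have hT0 : (0 : ℝ) < T := by linarith
    refine ⟨T, by exact_mod_cast hT0, ?_, ?_⟩
    · rw [div_le_div_iff₀ (by positivity) (by norm_num)]
      rw [div_lt_iff₀ (by positivity)] at hTa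
      linarith
    · have h1 : T * g / 2 ≤ Real.exp (T * g / 2) := by
        have := Real.add_one_le_exp (T * g / 2)
        linarith
      refine le_trans ?_ h1
      rw [div_lt_iff₀ (by positivity)] at hTb
      rw [div_le_iff₀ (by positivity)]
      nlinarith
  have hTr : (0 : ℝ) < T := by exact_mod_cast hT0
  set c1 : ℝ := 2 * (Real.log (4 / δ) + T + T * η + T * |G false|) with hc1
  have hl4 : 0 ≤ Real.log (4 / δ) := by
    apply Real.log_nonneg
    rw [le_div_iff₀ hδ]; linarith
  have hc10 : 0 ≤ c1 := by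
    rw [hc1]
    have : 0 ≤ T * |G false| := by positivity
    have : 0 ≤ T * η := by positivity
    linarith
  refine ⟨2 * T + c1 * (2 * T + 1), by positivity, ?_⟩
  intro X Y A Z _ _ _ _ M hM α β α0 α1 β0 β1 f N hN hNr hNG
  have hM1 : 1 ≤ M := hr1.trans hM
  have hM0 : 0 < M := by linarith
  have hlM : 0 ≤ Real.log M := Real.log_nonneg hM1
  have hlrM : Real.log r ≤ Real.log M := Real.log_le_log (by linarith) hM
  set B := Real.exp (T * (G true + η) - T * Real.log M) with hB
  set b := Real.exp (T * (G false - η) - T * Real.log M) with hb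
  have hb0 : 0 < b := Real.exp_pos _
  have hB0 : 0 < B := Real.exp_pos _
  have hb4 : b ≤ 4 / δ := by
    have h1 : b ≤ 1 := by
      rw [hb, Real.exp_le_one_iff]
      nlinarith
    have h2 : (1 : ℝ) ≤ 4 / δ := by
      rw [le_div_iff₀ hδ]; linarith
    linarith
  obtain ⟨l, hl1, hl2⟩ := exists_l hδ hb0 hb4
  have hbB : b = B * Real.exp (T * g / 2) := by
    rw [hb, hB, ← Real.exp_add]
    congr 1
    rw [hη, hg]
    ring
  have hnear : √(2 ^ l * B) / 2 ≤ δ / 2 := by
    have h1 : (2 : ℝ) ^ l * B ≤ δ ^ 2 := by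
      calc (2 : ℝ) ^ l * B ≤ 4 / (δ * b) * B := mul_le_mul_of_nonneg_right hl2 hB0.le
        _ = 4 / (δ * Real.exp (T * g / 2)) := by
            rw [hbB]
            field_simp
        _ ≤ δ ^ 2 := by
            rw [div_le_iff₀ (by positivity)]
            rw [div_le_iff₀ (by positivity)] at hT2
            nlinarith
    have h2 : √(2 ^ l * B) ≤ δ := by
      rw [Real.sqrt_le_left hδ.le]
      exact h1
    linarith
  have hfar : 1 / (b * 2 ^ l) ≤ δ / 2 := by
    rw [div_le_div_iff₀ (by positivity) (by norm_num)]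
    rw [div_le_iff₀ (by positivity)] at hl1
    linarith
  -- encoding
  set L := T * Nat.clog 2 (Fintype.card Z) with hL
  have hcZ : 1 ≤ Fintype.card Z := Fintype.card_pos
  have hcA : 1 ≤ Fintype.card A := Fintype.card_pos
  obtain ⟨code⟩ : Nonempty ((Fin T → Z) ↪ (Fin L → ZMod 2)) := by
    apply Function.Embedding.nonempty_of_card_le
    have h1 : Fintype.card (Fin L → ZMod 2) = 2 ^ L := by simp [ZMod.card]
    rw [h1, Fintype.card_fun, Fintype.card_fin, hL, mul_comm, pow_mul]
    exact Nat.pow_le_pow_left (bits _ hcZ).1 T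
  set k' := l * L + l with hk'
  set k := T * Nat.clog 2 (Fintype.card A) + k' with hk
  have hP1 : ∀ x y, ∑ z, (N x y z : ℝ) / M = 1 := by
    intro x y
    simp only [← hN]
    rw [Finset.sum_comm]
    simp only [← Finset.mul_sum, β1, mul_one, α1]
  have hP0 : ∀ x y z, 0 ≤ (N x y z : ℝ) / M := fun x y z => by positivity
  have hGb : ∀ x y, 0 ≤ G (f x y) ∧ G (f x y) ≤ Real.log r := by
    intro x y
    have hlog : ∀ z, 0 ≤ Real.log (N x y z) ∧ Real.log (N x y z) ≤ Real.log r := by
      intro z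
      refine ⟨Real.log_natCast_nonneg _, ?_⟩
      rcases Nat.eq_zero_or_pos (N x y z) with h | h
      · rw [h]; simpa using hlr
      · exact Real.log_le_log (by exact_mod_cast h) (by exact_mod_cast hNr x y z)
    rw [← hNG x y]
    constructor
    · exact Finset.sum_nonneg fun z _ => mul_nonneg (hP0 x y z) (hlog z).1
    · calc _ ≤ ∑ z, (N x y z : ℝ) / M * Real.log r :=
            Finset.sum_le_sum fun z _ => mul_le_mul_of_nonneg_left (hlog z).2 (hP0 x y z)
        _ = Real.log r := by rw [← Finset.sum_mul, hP1, one_mul]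
  have hvar : ∀ x y, ∑ z, (N x y z : ℝ) / M * (Real.log (N x y z) - G (f x y)) ^ 2 ≤ v := by
    intro x y
    have hlog : ∀ z, (Real.log (N x y z) - G (f x y)) ^ 2 ≤ v := by
      intro z
      have h1 : 0 ≤ Real.log (N x y z) := Real.log_natCast_nonneg _
      have h2 : Real.log (N x y z) ≤ Real.log r := by
        rcases Nat.eq_zero_or_pos (N x y z) with h | h
        · rw [h]; simpa using hlr
        · exact Real.log_le_log (by exact_mod_cast h) (by exact_mod_cast hNr x y z)
      obtain ⟨h3, h4⟩ := hGb x y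
      rw [hv, ← sq_abs (Real.log (N x y z) - G (f x y))]
      refine pow_le_pow_left₀ (abs_nonneg _) ?_ 2
      rw [abs_le]
      constructor <;> linarith
    calc _ ≤ ∑ z, (N x y z : ℝ) / M * v :=
          Finset.sum_le_sum fun z _ => mul_le_mul_of_nonneg_left (hlog z) (hP0 x y z)
      _ = v := by rw [← Finset.sum_mul, hP1, one_mul]
  have hch := fun x y => cheb hT0 (hP0 x y) (hP1 x y) (hNG x y) (hvar x y) hη0
  -- the kernels
  have hmix : ∀ x y (o : Gm l L × (Fin l → ZMod 2)),
      ∑ a : Fin T → A, (∏ t, α x (a t)) * hp code (fun z : Fin T → Z => ∏ t, β y (a t) (z t)) o =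
        hp code (fun z : Fin T → Z => ∏ t, (N x y (z t) : ℝ) / M) o := by
    intro x y o
    unfold hp
    simp only [mul_div_assoc']
    rw [← Finset.sum_div]
    congr 1
    simp only [Finset.mul_sum, mul_ite, mul_zero]
    rw [Finset.sum_comm]
    refine Finset.sum_congr rfl fun z _ => ?_
    split_ifs with h
    · simp only [← Finset.prod_mul_distrib]
      rw [sum_pi fun t a => α x a * β y a (z t)]
      exact Finset.prod_congr rfl fun t _ => hN x y (z t)
    · simp
  refine ⟨k, ?_, ?_⟩
  · set S := 1 + Real.log (Fintype.card A) + Real.log (Fintype.card Z) + Real.log M with hS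
    have hlA : 0 ≤ Real.log (Fintype.card A) := Real.log_natCast_nonneg _
    have hlZ : 0 ≤ Real.log (Fintype.card Z) := Real.log_natCast_nonneg _
    have hS1 : 1 ≤ S := by rw [hS]; linarith
    have h1 : (Nat.clog 2 (Fintype.card A) : ℝ) ≤ 2 * S := by
      have := (bits _ hcA).2
      rw [hS]; linarith
    have h2 : (L : ℝ) + 1 ≤ (2 * T + 1) * S := by
      have := (bits _ hcZ).2
      have h3 : (Nat.clog 2 (Fintype.card Z) : ℝ) ≤ 2 * S := by rw [hS]; linarith
      rw [hL]
      push_cast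
      nlinarith
    have h3 : (l : ℝ) ≤ c1 * S := by
      have e1 := Real.log_le_log (by positivity) hl2
      rw [Real.log_pow] at e1
      have e2 : Real.log (4 / (δ * b)) = Real.log (4 / δ) - (T * (G false - η) -
          T * Real.log M) := by
        rw [← div_div, Real.log_div (by positivity) hb0.ne', hb, Real.log_exp]
      rw [e2] at e1
      have e3 := Real.log_two_gt_d9
      have e4 : -(T * G false) ≤ T * |G false| := by
        have := neg_abs_le (G false)
        nlinarith
      have e5 : (l : ℝ) ≤ 2 * (Real.log (4 / δ) + T * |G false| + T * η + T * Real.log M) := by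
        have hl0 : (0 : ℝ) ≤ l := Nat.cast_nonneg _
        nlinarith
      have e6 : 0 ≤ T * |G false| := by positivity
      have e7 : 0 ≤ T * η := by positivity
      have e8 : T * Real.log M ≤ T * S - T := by
        have : Real.log M ≤ S - 1 := by rw [hS]; linarith
        nlinarith
      rw [hc1]
      nlinarith
    have h4 : (k : ℝ) = T * (Nat.clog 2 (Fintype.card A) : ℝ) + l * (L + 1) := by
      rw [hk, hk']; push_cast; ring
    rw [h4]
    have h5 : (T : ℝ) * (Nat.clog 2 (Fintype.card A) : ℝ) ≤ T * (2 * S) :=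
      mul_le_mul_of_nonneg_left h1 hTr.le
    have h6 : (l : ℝ) * (L + 1) ≤ (c1 * S) * ((2 * T + 1) * S) :=
      mul_le_mul h3 h2 (by positivity) (by positivity)
    have h7 : T * (2 * S) ≤ 2 * T * S ^ 2 := by
      have h8 : S ≤ S ^ 2 := by nlinarith
      have := mul_le_mul_of_nonneg_left h8 (by positivity : (0 : ℝ) ≤ 2 * T)
      linarith
    have h9 : (c1 * S) * ((2 * T + 1) * S) = c1 * (2 * T + 1) * S ^ 2 := by ring
    have h10 : (2 * T + c1 * (2 * T + 1)) * S ^ 2 = 2 * T * S ^ 2 + c1 * (2 * T + 1) * S ^ 2 := by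
      ring
    rw [h10]
    linarith
  · refine transfer (A := Fin T → A) (O := Gm l L × (Fin l → ZMod 2)) (k' := k') ?_ ?_ (by omega)
      (fun x a => ∏ t, α x (a t))
      (fun y a o => hp code (fun z : Fin T → Z => ∏ t, β y (a t) (z t)) o) ?_ ?_ ?_ ?_ δ f ?_ ?_
    · rw [Fintype.card_fun, Fintype.card_fin, hk, pow_add, mul_comm T, pow_mul]
      calc Fintype.card A ^ T ≤ (2 ^ Nat.clog 2 (Fintype.card A)) ^ T :=
            Nat.pow_le_pow_left (bits _ hcA).1 T
        _ ≤ (2 ^ Nat.clog 2 (Fintype.card A)) ^ T * 2 ^ k' :=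
            Nat.le_mul_of_pos_right _ (by positivity)
    · rw [Fintype.card_prod, hk', pow_add, pow_mul']
      simp [ZMod.card, ← pow_mul, mul_comm]
    · intro x a
      exact Finset.prod_nonneg fun t _ => α0 _ _
    · intro x
      exact sum_pi_one (α1 x)
    · intro y a o
      exact hp_nonneg _ (fun z => Finset.prod_nonneg fun t _ => β0 _ _ _) _
    · intro y a
      rw [hp_sum, sum_pi fun t z => β y (a t) z]
      simp [β1]
    · intro x y hxy
      simp only [hmix]
      have h1 := hch x y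
      rw [hxy] at h1
      have h2 : 1 - δ / 2 ≤ ∑ z : Fin T → Z,
          if ∏ t, (N x y (z t) : ℝ) / M ≤ B then ∏ t, (N x y (z t) : ℝ) / M else 0 := by
        refine le_trans ?_ (h1.trans ?_)
        · linarith
        · refine Finset.sum_le_sum fun z _ => ?_
          split_ifs with h3 h4 h4
          · exact le_rfl
          · exfalso
            apply h4
            rw [hB]
            apply prod_le hM0
            have := (abs_le.1 h3).2
            linarith
          · exact Finset.prod_nonneg fun t _ => hP0 _ _ _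
          · exact le_rfl
      have h3 := near (l := l) code.injective (P := fun z : Fin T → Z =>
        ∏ t, (N x y (z t) : ℝ) / M) (fun z => Finset.prod_nonneg fun t _ => hP0 _ _ _)
        (sum_pi_one (hP1 x y)) hB0.le h2
      linarith
    · intro x y hxy
      simp only [hmix]
      have h1 := hch x y
      rw [hxy] at h1
      have h2 : 1 - δ / 2 ≤ ∑ z : Fin T → Z,
          if b ≤ ∏ t, (N x y (z t) : ℝ) / M then ∏ t, (N x y (z t) : ℝ) / M else 0 := by
        refine le_trans ?_ (h1.trans ?_)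
        · linarith
        · refine Finset.sum_le_sum fun z _ => ?_
          split_ifs with h3 h4 h4
          · exact le_rfl
          · by_cases h5 : ∏ t, (N x y (z t) : ℝ) / M = 0
            · rw [h5]
            · exfalso
              apply h4
              rw [hb]
              apply le_prod hM0 z _ h5
              have := (abs_le.1 h3).1
              linarith
          · exact Finset.prod_nonneg fun t _ => hP0 _ _ _
          · exact le_rfl
      have h3 := far (l := l) code (P := fun z : Fin T → Z =>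
        ∏ t, (N x y (z t) : ℝ) / M) (fun z => Finset.prod_nonneg fun t _ => hP0 _ _ _)
        (sum_pi_one (hP1 x y)) hb0 h2
      linarith

end Pool.Agent.Helper78.NX
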