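import Mathlib

/-!
Zeros of random vectors on hyperplanes over finite fields.
-/

set_option autoImplicit false
set_option linter.unusedSectionVars false

namespace Pool.Agent.Helper78.NX

open Finset

variable {F Λ : Type} [Field F] [Fintype F] [DecidableEq F] [Fintype Λ] [DecidableEq Λ]

/-- vectors with a prescribed value of a linear form -/
def Hp (a : Λ → F) (c : F) : Finset (Λ → F) := univ.filter fun E => ∑ j, a j * E j = c

/-- zeros -/
def zc (E : Λ → F) : Finset Λ := univ.filter fun j => E j = 0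

theorem mem_Hp {a : Λ → F} {c : F} {E : Λ → F} : E ∈ Hp a c ↔ ∑ j, a j * E j = c := by
  simp [Hp]

theorem mem_zc {E : Λ → F} {j : Λ} : j ∈ zc E ↔ E j = 0 := by simp [zc]

theorem form_add (a E h : Λ → F) : ∑ j, a j * (E + h) j = ∑ j, a j * E j + ∑ j, a j * h j := by
  simp [mul_add, Finset.sum_add_distrib]

theorem form_single (a : Λ → F) (i : Λ) (c : F) :
    ∑ j, a j * (Pi.single i c : Λ → F) j = a i * c := by
  rw [Finset.sum_eq_single i]
  · simp
  · intro b _ hb; simp [hb]
  · intro h; exact absurd (Finset.mem_univ _) h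

theorem tr_card (a h : Λ → F) (j : Λ) :
    ((Hp a (∑ j, a j * h j)).filter fun E => E j = h j).card =
      ((Hp a 0).filter fun E => E j = 0).card := by
  symm
  refine Finset.card_bij (fun E _ => E + h) ?_ ?_ ?_
  · intro E hE
    rw [Finset.mem_filter, mem_Hp] at hE ⊢
    rw [form_add, hE.1, zero_add]
    exact ⟨rfl, by simp [hE.2]⟩
  · intro E _ E' _ hh
    exact add_right_cancel hh
  · intro E hE
    rw [Finset.mem_filter, mem_Hp] at hE
    refine ⟨E - h, ?_, by simp⟩
    rw [Finset.mem_filter, mem_Hp]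
    constructor
    · have := form_add a (E - h) h
      rw [sub_add_cancel, hE.1] at this
      exact (add_eq_right.1 this.symm)
    · simp [hE.2]

theorem fib {a : Λ → F} (ha : ∀ j, a j ≠ 0) (hr : 2 ≤ Fintype.card Λ) (c c' : F) (j : Λ) :
    ((Hp a c).filter fun E => E j = c').card * Fintype.card F = (Hp a 0).card := by
  obtain ⟨j', hj'⟩ : ∃ j', j' ≠ j := Fintype.exists_ne_of_one_lt_card (by omega) j
  have key : ∀ c c' : F, ((Hp a c).filter fun E => E j = c').card =
      ((Hp a 0).filter fun E => E j = 0).card := by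
    intro c c'
    set h : Λ → F := Pi.single j c' + Pi.single j' ((c - a j * c') / a j') with hh
    have h1 : ∑ i, a i * h i = c := by
      rw [hh, form_add, form_single, form_single]
      field_simp [ha j']
      ring
    have h2 : h j = c' := by
      rw [hh]
      simp [hj'.symm]
    have := tr_card a h j
    rw [h1, h2] at this
    exact this
  rw [key]
  have h3 := Finset.card_eq_sum_card_fiberwise (s := Hp a 0) (t := (univ : Finset F))
    (f := fun E => E j) (fun _ _ => Finset.mem_coe.2 (Finset.mem_univ _))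
  rw [h3]
  simp only [key]
  rw [Finset.sum_const, Finset.card_univ, smul_eq_mul, mul_comm]

theorem Hp_pos (a : Λ → F) : 0 < (Hp a 0).card :=
  Finset.card_pos.2 ⟨0, by rw [mem_Hp]; simp⟩

theorem sum_zc {a : Λ → F} (ha : ∀ j, a j ≠ 0) (hr : 2 ≤ Fintype.card Λ) (c : F) :
    (∑ E ∈ Hp a c, (zc E).card) * Fintype.card F = Fintype.card Λ * (Hp a 0).card := by
  have h1 : ∑ E ∈ Hp a c, (zc E).card = ∑ j : Λ, ((Hp a c).filter fun E => E j = 0).card := by
    simp only [zc, Finset.card_filter]
    rw [Finset.sum_comm]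
  rw [h1, Finset.sum_mul]
  simp only [fib ha hr]
  rw [Finset.sum_const, Finset.card_univ, smul_eq_mul]

theorem card_zero {a : Λ → F} (ha : ∀ j, a j ≠ 0) (c : F) {A : Finset Λ} (hA : A ≠ univ) :
    ((Hp a c).filter fun E => A ⊆ zc E).card = ((Hp a 0).filter fun E => A ⊆ zc E).card := by
  obtain ⟨j, hj⟩ : ∃ j, j ∉ A := by
    by_contra h
    push Not at h
    exact hA (Finset.eq_univ_iff_forall.2 h)
  symm
  refine Finset.card_bij (fun E _ => E + Pi.single j (c / a j)) ?_ ?_ ?_
  · intro E hE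
    rw [Finset.mem_filter, mem_Hp] at hE ⊢
    rw [form_add, hE.1, form_single]
    refine ⟨by field_simp [ha j]; ring, fun i hi => ?_⟩
    have h1 := mem_zc.1 (hE.2 hi)
    have h2 : i ≠ j := fun h => hj (h ▸ hi)
    rw [mem_zc, Pi.add_apply, h1, Pi.single_eq_of_ne h2, add_zero]
  · intro E _ E' _ hh
    exact add_right_cancel hh
  · intro E hE
    rw [Finset.mem_filter, mem_Hp] at hE
    refine ⟨E - Pi.single j (c / a j), ?_, by simp⟩
    rw [Finset.mem_filter, mem_Hp]
    constructor
    · have := form_add a (E - Pi.single j (c / a j)) (Pi.single j (c / a j))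
      rw [sub_add_cancel, hE.1, form_single, mul_div_cancel₀ _ (ha j)] at this
      exact (add_eq_right.1 this.symm)
    · intro i hi
      have h1 := mem_zc.1 (hE.2 hi)
      have h2 : i ≠ j := fun h => hj (h ▸ hi)
      rw [mem_zc, Pi.sub_apply, h1, Pi.single_eq_of_ne h2, sub_zero]

theorem expand (φ : ℕ → ℝ) (E : Λ → F) :
    φ (zc E).card = ∑ A : Finset Λ, if A ⊆ zc E then (fwdDiff 1)^[A.card] φ 0 else 0 := by
  have h1 := Finset.sum_powerset_apply_card (fun k => (fwdDiff 1)^[k] φ 0) (x := zc E)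
  have h2 := shift_eq_sum_fwdDiff_iter 1 φ (zc E).card 0
  rw [← h1] at h2
  simp only [smul_eq_mul, mul_one, zero_add] at h2
  rw [h2, ← Finset.sum_filter]
  refine Finset.sum_congr ?_ fun _ _ => rfl
  ext A
  simp

theorem diff_sum {a : Λ → F} (ha : ∀ j, a j ≠ 0) {c : F} (hc : c ≠ 0) (φ : ℕ → ℝ) :
    ∑ E ∈ Hp a 0, φ (zc E).card - ∑ E ∈ Hp a c, φ (zc E).card = (fwdDiff 1)^[Fintype.card Λ] φ 0 := by
  have h1 : ∀ c, ∑ E ∈ Hp a c, φ (zc E).card =
      ∑ A : Finset Λ, ((Hp a c).filter fun E => A ⊆ zc E).card * (fwdDiff 1)^[A.card] φ 0 := by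
    intro c
    simp only [expand]
    rw [Finset.sum_comm]
    refine Finset.sum_congr rfl fun A _ => ?_
    rw [← Finset.sum_filter, Finset.sum_const, nsmul_eq_mul]
  rw [h1, h1, ← Finset.sum_sub_distrib, Finset.sum_eq_single univ]
  · have h2 : ((Hp a 0).filter fun E => univ ⊆ zc E) = {0} := by
      ext E
      simp only [Finset.mem_filter, mem_Hp, Finset.mem_singleton]
      constructor
      · rintro ⟨-, h⟩
        funext j
        exact mem_zc.1 (h (Finset.mem_univ j))
      · rintro rfl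
        refine ⟨by simp, fun j _ => ?_⟩
        rw [mem_zc]; rfl
    have h3 : ((Hp a c).filter fun E => univ ⊆ zc E) = ∅ := by
      ext E
      simp only [Finset.mem_filter, mem_Hp, Finset.notMem_empty, iff_false, not_and]
      intro hE h
      apply hc
      rw [← hE]
      refine Finset.sum_eq_zero fun j _ => ?_
      rw [mem_zc.1 (h (Finset.mem_univ j)), mul_zero]
    rw [h2, h3]
    simp
  · intro A _ hA
    rw [card_zero ha c hA, sub_self]
  · intro h; exact absurd (Finset.mem_univ _) h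

theorem shift_sum (a C : Λ → F) (φ : ℕ → ℝ) :
    ∑ E ∈ Hp a 0, φ (zc (E + C)).card = ∑ E ∈ Hp a (∑ j, a j * C j), φ (zc E).card := by
  refine Finset.sum_bij (fun E _ => E + C) ?_ ?_ ?_ ?_
  · intro E hE
    rw [mem_Hp] at hE ⊢
    rw [form_add, hE, zero_add]
  · intro E _ E' _ hh
    exact add_right_cancel hh
  · intro E hE
    rw [mem_Hp] at hE
    refine ⟨E - C, ?_, by simp⟩
    rw [mem_Hp]
    have := form_add a (E - C) C
    rw [sub_add_cancel, hE] at this
    exact (add_eq_right.1 this.symm)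
  · intro E _
    rfl

/-- the function `k log k` -/
noncomputable def fl (k : ℕ) : ℝ := k * Real.log k

theorem fl_ne {r : ℕ} (hr : 2 ≤ r) : (fwdDiff 1)^[r] fl 0 ≠ 0 := by
  intro h
  rw [fwdDiff_iter_eq_sum_shift] at h
  obtain ⟨p, hp, hp1, hp2⟩ := Nat.exists_prime_lt_and_le_two_mul (r / 2) (by omega)
  have hpr : p ≤ r := by omega
  have hp3 : r < 2 * p := by omega
  have : Fact p.Prime := ⟨hp⟩
  set c : ℕ → ℤ := fun k => (-1) ^ (r - k) * (r.choose k) * k with hc
  have h1 : ∑ k ∈ range (r + 1), (c k : ℝ) * Real.log k = 0 := by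
    rw [← h]
    refine Finset.sum_congr rfl fun k _ => ?_
    simp only [hc, fl, zsmul_eq_mul, smul_eq_mul, mul_one, zero_add]
    push_cast
    ring
  have h2 : ∑ k ∈ Finset.Icc 1 r, (c k : ℝ) * Real.log k = 0 := by
    rw [Finset.range_eq_Ico, Finset.sum_eq_sum_Ico_succ_bot (by omega)] at h1
    simp only [Nat.cast_zero, Real.log_zero, mul_zero, zero_add] at h1
    rw [← h1]
    refine Finset.sum_congr ?_ fun _ _ => rfl
    ext k
    simp only [Finset.mem_Icc, Finset.mem_Ico]
    omega
  set R : ℚ := ∏ k ∈ Finset.Icc 1 r, (k : ℚ) ^ c k with hR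
  have hk0 : ∀ k ∈ Finset.Icc 1 r, (k : ℚ) ≠ 0 := by
    intro k hk
    have := (Finset.mem_Icc.1 hk).1
    positivity
  have hRpos : 0 < R := by
    refine Finset.prod_pos fun k hk => ?_
    have := (Finset.mem_Icc.1 hk).1
    positivity
  have hlog : Real.log (R : ℝ) = 0 := by
    rw [hR, ← h2]
    push_cast
    rw [Real.log_prod]
    · refine Finset.sum_congr rfl fun k _ => ?_
      rw [Real.log_zpow]
    · intro k hk
      have := (Finset.mem_Icc.1 hk).1
      positivity
  have hR1 : R = 1 := by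
    have h3 : (0 : ℝ) < (R : ℝ) := by exact_mod_cast hRpos
    have h4 : (R : ℝ) = 1 := Real.eq_one_of_pos_of_log_eq_zero h3 hlog
    exact_mod_cast h4
  have hval : ∀ s ⊆ Finset.Icc 1 r, padicValRat p (∏ k ∈ s, (k : ℚ) ^ c k) =
      ∑ k ∈ s, c k * padicValRat p (k : ℚ) := by
    intro s
    induction s using Finset.induction_on with
    | empty => intro _; simp
    | insert k s hks ih =>
      intro hs
      have hk := hs (Finset.mem_insert_self k s)
      have hs' : s ⊆ Finset.Icc 1 r := fun i hi => hs (Finset.mem_insert_of_mem hi)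
      rw [Finset.prod_insert hks, Finset.sum_insert hks, padicValRat.mul, padicValRat.zpow, ih hs']
      · exact zpow_ne_zero _ (hk0 k hk)
      · exact Finset.prod_ne_zero_iff.2 fun i hi => zpow_ne_zero _ (hk0 i (hs' hi))
  have h5 := hval _ (Finset.Subset.refl _)
  rw [← hR, hR1, padicValRat.one, Finset.sum_eq_single p] at h5
  · rw [padicValRat.self hp.one_lt, mul_one] at h5
    simp only [hc] at h5
    have h6 : (r.choose p : ℤ) ≠ 0 := by exact_mod_cast (Nat.choose_pos hpr).ne'
    have h7 : (p : ℤ) ≠ 0 := by exact_mod_cast hp.ne_zero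
    have h8 : ((-1 : ℤ)) ^ (r - p) ≠ 0 := pow_ne_zero _ (by norm_num)
    exact (mul_ne_zero (mul_ne_zero h8 h6) h7) h5.symm
  · intro k hk hkp
    have hk' := Finset.mem_Icc.1 hk
    have hnd : ¬ p ∣ k := by
      rintro ⟨m, rfl⟩
      have hm0 : m ≠ 0 := by rintro rfl; simp at hk'
      have hm1 : m ≠ 1 := by rintro rfl; simp at hkp
      have : 2 ≤ m := by omega
      have : p * 2 ≤ p * m := Nat.mul_le_mul_left p this
      omega
    rw [padicValRat.of_nat, padicValNat.eq_zero_of_not_dvd hnd]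
    simp
  · intro hpn
    exact absurd (Finset.mem_Icc.2 ⟨hp.one_le, hpr⟩) hpn

end Pool.Agent.Helper78.NX
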