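import Mathlib

/-!
Matching vector families modulo a product of distinct primes (Barrington, Beigel, Rudich and
Grolmusz).
-/

set_option autoImplicit false

namespace Pool.Agent.Helper78.NX

open Finset

theorem choose_pow {p : ℕ} (hp : p.Prime) (e N : ℕ) :
    ((N.choose (p ^ e - 1) : ℕ) : ZMod p) = if p ^ e ∣ N + 1 then 1 else 0 := by
  have : Fact p.Prime := ⟨hp⟩
  have hp1 := hp.one_lt
  induction e generalizing N with
  | zero => simp
  | succ e ih =>
    have hpe : 1 ≤ p ^ e := Nat.one_le_pow _ _ hp.pos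
    have hk : p ^ (e + 1) - 1 = p * (p ^ e - 1) + (p - 1) := by
      rw [pow_succ, mul_comm (p ^ e) p]
      zify [hpe, hp1.le, Nat.one_le_pow, show 1 ≤ p * p ^ e from Nat.one_le_iff_ne_zero.2
        (Nat.mul_ne_zero hp.ne_zero (by omega))]
      ring
    have hmod : (p ^ (e + 1) - 1) % p = p - 1 := by
      rw [hk, Nat.mul_add_mod]
      exact Nat.mod_eq_of_lt (by omega)
    have hdiv : (p ^ (e + 1) - 1) / p = p ^ e - 1 := by
      rw [hk, Nat.mul_add_div hp.pos, Nat.div_eq_of_lt (by omega), add_zero]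
    have h := Choose.choose_modEq_choose_mod_mul_choose_div_nat (n := N) (k := p ^ (e + 1) - 1)
      (p := p)
    rw [hmod, hdiv] at h
    have h' := (ZMod.natCast_eq_natCast_iff _ _ _).2 h
    rw [h']
    push_cast
    have hN := Nat.div_add_mod N p
    have hlt := Nat.mod_lt N hp.pos
    by_cases h1 : N % p = p - 1
    · rw [h1, Nat.choose_self, Nat.cast_one, one_mul, ih]
      have h2 : N + 1 = p * (N / p + 1) := by
        rw [mul_add, mul_one]
        omega
      have h3 : p ^ (e + 1) ∣ N + 1 ↔ p ^ e ∣ N / p + 1 := by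
        conv_lhs => rw [h2]
        rw [pow_succ, mul_comm (p ^ e) p]
        exact Nat.mul_dvd_mul_iff_left hp.pos
      simp only [h3]
    · rw [Nat.choose_eq_zero_of_lt (by omega), Nat.cast_zero, zero_mul, if_neg]
      intro h2
      have h3 : p ∣ N + 1 := (Dvd.intro_left (p ^ e) rfl : p ∣ p ^ (e + 1)).trans h2
      obtain ⟨m, hm⟩ := h3
      have h4 : (N + 1) % p = 0 := by rw [hm]; simp
      have h5 : N % p + 1 < p := by omega
      have h6 : (N + 1) % p = N % p + 1 := by
        rw [Nat.add_mod, Nat.mod_eq_of_lt hp1, Nat.mod_eq_of_lt h5]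
      omega

/-- the coefficients modulo one prime -/
def cj (p D s j : ℕ) : ZMod p :=
  (if j = 0 then 1 else 0) - if j ≤ D - 1 then ((s.choose (D - 1 - j) : ℕ) : ZMod p) else 0

theorem sum_cj (p : ℕ) {D D' : ℕ} (hD : 1 ≤ D) (hDD : D ≤ D') (s a : ℕ) :
    ∑ j ∈ range D', ((a.choose j : ℕ) : ZMod p) * cj p D s j =
      1 - (((a + s).choose (D - 1) : ℕ) : ZMod p) := by
  unfold cj
  simp only [mul_sub, Finset.sum_sub_distrib]
  congr 1
  · rw [Finset.sum_eq_single 0]
    · simp
    · intro j _ hj; simp [hj]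
    · intro h; exact absurd (Finset.mem_range.2 (by omega)) h
  · rw [Nat.add_choose_eq, Finset.Nat.sum_antidiagonal_eq_sum_range_succ
      (fun i j => a.choose i * s.choose j)]
    push_cast
    have h1 : (D - 1).succ = D := by omega
    rw [h1]
    symm
    refine Finset.sum_subset_zero_on_sdiff (Finset.range_subset_range.2 hDD) ?_ ?_
    · intro j hj
      rw [Finset.mem_sdiff, Finset.mem_range, Finset.mem_range] at hj
      rw [if_neg (by omega), mul_zero]
    · intro j hj
      rw [Finset.mem_range] at hj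
      rw [if_pos (by omega)]

theorem card_small (h D : ℕ) :
    Fintype.card {J : Finset (Fin h) // J.card < D} ≤ (h + 1) ^ D := by
  classical
  rw [Fintype.card_subtype]
  have h1 : (univ.filter fun J : Finset (Fin h) => J.card < D).card =
      ∑ j ∈ range D, h.choose j := by
    rw [Finset.card_eq_sum_card_fiberwise (f := fun J => J.card) (t := range D)]
    · refine Finset.sum_congr rfl fun j hj => ?_
      rw [Finset.mem_range] at hj
      rw [Finset.filter_filter]
      have : (univ.filter fun J : Finset (Fin h) => J.card < D ∧ J.card = j) =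
          powersetCard j univ := by
        ext J
        simp only [Finset.mem_filter, Finset.mem_univ, true_and, Finset.mem_powersetCard,
          Finset.subset_univ]
        omega
      rw [this, Finset.card_powersetCard, Finset.card_univ, Fintype.card_fin]
    · intro J hJ
      rw [Finset.mem_coe, Finset.mem_filter] at hJ
      exact Finset.mem_coe.2 (Finset.mem_range.2 hJ.2)
  rw [h1, add_pow]
  calc ∑ j ∈ range D, h.choose j ≤ ∑ j ∈ range D, h ^ j * 1 ^ (D - j) * D.choose j := by
        refine Finset.sum_le_sum fun j hj => ?_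
        rw [Finset.mem_range] at hj
        rw [one_pow, mul_one]
        calc h.choose j ≤ h ^ j := Nat.choose_le_pow h j
          _ ≤ h ^ j * D.choose j := Nat.le_mul_of_pos_right _ (Nat.choose_pos hj.le)
    _ ≤ _ := Finset.sum_le_sum_of_subset_of_nonneg
        (Finset.range_subset_range.2 (Nat.le_succ D)) fun _ _ _ => Nat.zero_le _

theorem sum_subsets {R : Type} [CommRing R] {h D : ℕ} (T T' : Finset (Fin h)) (c : ℕ → R) :
    ∑ J : {J : Finset (Fin h) // J.card < D},
      ((if J.1 ⊆ T then (1 : R) else 0) * if J.1 ⊆ T' then c J.1.card else 0) =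
      ∑ j ∈ range D, (((T ∩ T').card.choose j : ℕ) : R) * c j := by
  classical
  rw [← Finset.sum_subtype (univ.filter fun J : Finset (Fin h) => J.card < D) (by simp)
    (fun J => (if J ⊆ T then (1 : R) else 0) * if J ⊆ T' then c J.card else 0)]
  have h1 : ∀ J : Finset (Fin h), ((if J ⊆ T then (1 : R) else 0) *
      if J ⊆ T' then c J.card else 0) = if J ⊆ T ∩ T' then c J.card else 0 := by
    intro J
    by_cases h1 : J ⊆ T
    · by_cases h2 : J ⊆ T'
      · rw [if_pos h1, if_pos h2, if_pos (Finset.subset_inter h1 h2), one_mul]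
      · have h3 : ¬ J ⊆ T ∩ T' := fun h => h2 (Finset.Subset.trans h Finset.inter_subset_right)
        rw [if_neg h2, if_neg h3, mul_zero]
    · have h3 : ¬ J ⊆ T ∩ T' := fun h => h1 (Finset.Subset.trans h Finset.inter_subset_left)
      rw [if_neg h1, if_neg h3, zero_mul]
  simp only [h1]
  rw [← Finset.sum_filter, Finset.filter_filter,
    ← Finset.sum_fiberwise_of_maps_to (t := range D) (g := fun J => J.card)]
  · refine Finset.sum_congr rfl fun j hj => ?_
    rw [Finset.mem_range] at hj
    rw [Finset.sum_congr rfl (g := fun _ => c j) (fun J hJ => by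
      rw [(Finset.mem_filter.1 hJ).2]), Finset.sum_const, nsmul_eq_mul]
    congr 2
    rw [← Finset.card_powersetCard]
    congr 1
    ext J
    simp only [Finset.mem_filter, Finset.mem_univ, true_and, Finset.mem_powersetCard]
    constructor
    · rintro ⟨⟨-, h2⟩, h3⟩; exact ⟨h2, h3⟩
    · rintro ⟨h2, h3⟩; exact ⟨⟨by omega, h2⟩, h3⟩
  · intro J hJ
    rw [Finset.mem_filter] at hJ
    exact Finset.mem_range.2 hJ.2.1

/-- the values outside the diagonal -/
def isS {t : ℕ} (p : Fin t → ℕ) (s : ∀ l, ZMod (p l)) : Prop :=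
  s ≠ 0 ∧ ∀ l, s l = 0 ∨ s l = 1

theorem mv {t : ℕ} {p : Fin t → ℕ} (hp : ∀ l, (p l).Prime) (hinj : Function.Injective p)
    {e : Fin t → ℕ} {w D n h : ℕ} (hD : ∀ l, p l ^ e l ≤ D) (hw : w < ∏ l, p l ^ e l)
    (hn : n ≤ h.choose w) :
    ∃ (K : Type) (_ : Fintype K) (u v : Fin n → K → ∀ l, ZMod (p l)),
      Fintype.card K ≤ (h + 1) ^ D ∧ (∀ i, ∑ κ, u i κ * v i κ = 0) ∧
      ∀ i j, i ≠ j → isS p (∑ κ, u j κ * v i κ) := by
  classical
  obtain ⟨τ⟩ : Nonempty (Fin n ↪ {T : Finset (Fin h) // T.card = w}) := by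
    apply Function.Embedding.nonempty_of_card_le
    rw [Fintype.card_fin, Fintype.card_finset_len, Fintype.card_fin]
    exact hn
  set s : Fin t → ℕ := fun l => (p l ^ e l - 1) * (w + 1) with hs
  set c : ℕ → ∀ l, ZMod (p l) := fun j l => cj (p l) (p l ^ e l) (s l) j with hc
  refine ⟨{J : Finset (Fin h) // J.card < D}, inferInstance,
    fun i J => if J.1 ⊆ (τ i).1 then 1 else 0, fun i J => if J.1 ⊆ (τ i).1 then c J.1.card else 0,
    card_small h D, ?_⟩
  have hpe : ∀ l, 1 ≤ p l ^ e l := fun l => Nat.one_le_pow _ _ (hp l).pos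
  have key : ∀ T T' : Finset (Fin h), T.card = w →
      (∑ J : {J : Finset (Fin h) // J.card < D},
        ((if J.1 ⊆ T then (1 : ∀ l, ZMod (p l)) else 0) * if J.1 ⊆ T' then c J.1.card else 0)) =
      fun l => if p l ^ e l ∣ w - (T ∩ T').card then 0 else 1 := by
    intro T T' hT
    rw [sum_subsets]
    funext l
    rw [Finset.sum_apply]
    simp only [Pi.mul_apply, Pi.natCast_apply]
    have h1 := sum_cj (p l) (hpe l) (hD l) (s l) (T ∩ T').card
    rw [choose_pow (hp l)] at h1
    simp only [hc]
    rw [h1]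
    have hle : (T ∩ T').card ≤ w := by
      rw [← hT]; exact Finset.card_le_card Finset.inter_subset_left
    have h2 : p l ^ e l ∣ (T ∩ T').card + s l + 1 ↔ p l ^ e l ∣ w - (T ∩ T').card := by
      have h3 : (T ∩ T').card + s l + 1 + (w - (T ∩ T').card) = p l ^ e l * (w + 1) := by
        simp only [hs]
        have := hpe l
        obtain ⟨q, hq⟩ : ∃ q, p l ^ e l = q + 1 := ⟨p l ^ e l - 1, by omega⟩
        rw [hq, Nat.add_sub_cancel, add_mul, one_mul]
        omega
      have h4 : p l ^ e l ∣ (T ∩ T').card + s l + 1 + (w - (T ∩ T').card) := ⟨w + 1, h3⟩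
      constructor
      · intro h5
        exact (Nat.dvd_add_right h5).1 h4
      · intro h5
        exact (Nat.dvd_add_left h5).1 h4
    simp only [h2]
    split_ifs <;> simp
  constructor
  · intro i
    rw [key _ _ (τ i).2]
    funext l
    rw [Finset.inter_self, (τ i).2]
    simp
  · intro i j hij
    rw [key _ _ (τ j).2]
    constructor
    · intro h0
      have h1 : ∀ l, p l ^ e l ∣ w - ((τ j).1 ∩ (τ i).1).card := by
        intro l
        have h2 := congrFun h0 l
        by_contra h3
        rw [if_neg h3] at h2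
        have : Fact (p l).Prime := ⟨hp l⟩
        exact one_ne_zero h2
      have h2 : ∏ l, p l ^ e l ∣ w - ((τ j).1 ∩ (τ i).1).card := by
        refine Finset.prod_dvd_of_isRelPrime ?_ fun l _ => h1 l
        intro l _ l' _ hll
        rw [Function.onFun, ← Nat.coprime_iff_isRelPrime]
        exact Nat.Coprime.pow _ _ ((Nat.coprime_primes (hp l) (hp l')).2 fun h => hll (hinj h))
      have h3 : w - ((τ j).1 ∩ (τ i).1).card = 0 :=
        Nat.eq_zero_of_dvd_of_lt h2 (lt_of_le_of_lt (Nat.sub_le _ _) hw)
      have h4 : w ≤ ((τ j).1 ∩ (τ i).1).card := by omega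
      have h5 : (τ j).1 ∩ (τ i).1 = (τ j).1 :=
        Finset.eq_of_subset_of_card_le Finset.inter_subset_left (by rw [(τ j).2]; exact h4)
      have h6 : (τ j).1 ∩ (τ i).1 = (τ i).1 :=
        Finset.eq_of_subset_of_card_le Finset.inter_subset_right (by rw [(τ i).2]; exact h4)
      exact hij (τ.injective (Subtype.ext (h6.symm.trans h5)))
    · intro l
      simp only
      split_ifs
      · exact Or.inl rfl
      · exact Or.inr rfl

end Pool.Agent.Helper78.NX
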