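import Pool.Agent.Helper78.NX.Samp
import Pool.Agent.Helper78.NX.Mv

/-!
Protocols from matching vectors.
-/

set_option autoImplicit false

namespace Pool.Agent.Helper78.NX

open Finset Polynomial

theorem exists_char {t : ℕ} {p : Fin t → ℕ} (hp : ∀ l, (p l).Prime)
    (hinj : Function.Injective p) :
    ∃ (F : Type) (_ : Field F) (_ : Fintype F) (χ : AddChar (∀ l, ZMod (p l)) F),
      ∀ s, χ s = 1 → s = 0 := by
  classical
  set m := ∏ l, p l with hm
  have hm0 : m ≠ 0 := Finset.prod_ne_zero_iff.2 fun l _ => (hp l).ne_zero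
  have : NeZero m := ⟨hm0⟩
  have hcop : Pairwise (Function.onFun Nat.Coprime p) := by
    intro l l' hll
    exact (Nat.coprime_primes (hp l) (hp l')).2 fun h => hll (hinj h)
  let e : ZMod m ≃+* ∀ l, ZMod (p l) := ZMod.prodEquivPi p hcop
  obtain ⟨q, hq, hq1, hqm⟩ := Nat.exists_prime_gt_modEq_one 1 hm0
  have : Fact q.Prime := ⟨hq⟩
  obtain ⟨g, hg⟩ := IsCyclic.exists_generator (α := (ZMod q)ˣ)
  have hord : orderOf g = q - 1 := by
    rw [orderOf_eq_card_of_forall_mem_zpowers hg, Nat.card_eq_fintype_card, ZMod.card_units]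
  have hprim : IsPrimitiveRoot g (q - 1) := by
    rw [← hord]; exact IsPrimitiveRoot.orderOf g
  have hdvd : m ∣ q - 1 := (Nat.modEq_iff_dvd' hq.one_le).1 hqm.symm
  obtain ⟨c, hc⟩ := hdvd
  have hprim2 : IsPrimitiveRoot (g ^ c) m :=
    hprim.pow (by have := hq.two_le; omega) (by rw [hc, mul_comm])
  have hprim3 : IsPrimitiveRoot ((g ^ c : (ZMod q)ˣ) : ZMod q) m :=
    IsPrimitiveRoot.coe_units_iff.2 hprim2
  refine ⟨ZMod q, inferInstance, inferInstance,
    (AddChar.zmodChar m hprim3.pow_eq_one).compAddMonoidHom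
      (e.symm : (∀ l, ZMod (p l)) →+ ZMod m), ?_⟩
  intro s hs
  rw [AddChar.compAddMonoidHom_apply] at hs
  have h1 := (AddChar.zmodChar_primitive_of_primitive_root m hprim3)
  have h2 := (AddChar.IsPrimitive.zmod_char_eq_one_iff m h1 _).1 hs
  have h3 : e.symm s = 0 := h2
  exact (map_eq_zero_iff e.symm e.symm.injective).1 h3

theorem exists_poly {t : ℕ} (ht : 0 < t) {p : Fin t → ℕ} (hp : ∀ l, (p l).Prime) {F : Type}
    [Field F] (χ : AddChar (∀ l, ZMod (p l)) F) (hχ : ∀ s, χ s = 1 → s = 0) :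
    ∃ P : F[X], P.eval 1 ≠ 0 ∧ (∀ s, isS p s → P.eval (χ s) = 0) ∧ 2 ≤ P.support.card := by
  classical
  have : ∀ l, NeZero (p l) := fun l => ⟨(hp l).ne_zero⟩
  have : ∀ l, Fact (p l).Prime := fun l => ⟨hp l⟩
  set P : F[X] := ∏ s ∈ (univ : Finset (∀ l, ZMod (p l))).filter (isS p), (X - C (χ s)) with hP
  have h1 : P.eval 1 ≠ 0 := by
    rw [hP, eval_prod]
    refine Finset.prod_ne_zero_iff.2 fun s hs => ?_
    rw [Finset.mem_filter] at hs
    rw [eval_sub, eval_X, eval_C]
    exact sub_ne_zero.2 fun h => hs.2.1 (hχ s h.symm)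
  have h2 : ∀ s, isS p s → P.eval (χ s) = 0 := by
    intro s hs
    rw [hP, eval_prod]
    refine Finset.prod_eq_zero (Finset.mem_filter.2 ⟨Finset.mem_univ s, hs⟩) ?_
    rw [eval_sub, eval_X, eval_C, sub_self]
  refine ⟨P, h1, h2, ?_⟩
  by_contra h3
  have h4 : P.support.card ≤ 1 := by omega
  obtain ⟨n, a, hna⟩ := Polynomial.card_support_le_one_iff_monomial.1 h4
  have h5 : isS p (1 : ∀ l, ZMod (p l)) := by
    refine ⟨?_, fun l => Or.inr rfl⟩
    intro h0
    have := congrFun h0 ⟨0, ht⟩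
    exact one_ne_zero this
  have h6 := h2 _ h5
  rw [hna, eval_monomial] at h6 h1
  rw [one_pow, mul_one] at h1
  have h7 : χ 1 ≠ 0 := by
    intro h
    have : χ (1 + -1) = χ 1 * χ (-1) := AddChar.map_add_eq_mul χ _ _
    rw [h, zero_mul, add_neg_cancel, AddChar.map_zero_eq_one] at this
    exact one_ne_zero this
  exact (mul_ne_zero h1 (pow_ne_zero _ h7)) h6

theorem code_prot {t : ℕ} (ht : 0 < t) {p : Fin t → ℕ} (hp : ∀ l, (p l).Prime)
    (hinj : Function.Injective p) (δ : ℝ) (hδ : 0 < δ) (hδ1 : δ ≤ 1) :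
    ∃ C : ℝ, 0 ≤ C ∧ ∀ (n : ℕ) (K : Type) [Fintype K] (u v : Fin n → K → ∀ l, ZMod (p l)),
      (∀ i, ∑ κ, u i κ * v i κ = 0) → (∀ i j, i ≠ j → isS p (∑ κ, u j κ * v i κ)) →
      ∃ k : ℕ, (k : ℝ) ≤ C * (1 + Fintype.card K) ^ 2 ∧
        ∃ N : OneWay (Fin n → Bool) (Fin n) k, N.Solves δ fun x i => x i := by
  classical
  have : ∀ l, NeZero (p l) := fun l => ⟨(hp l).ne_zero⟩
  obtain ⟨F, _, _, χ, hχ⟩ := exists_char hp hinj
  obtain ⟨P, hP1, hPS, hPr⟩ := exists_poly ht hp χ hχ
  have hΛ : Fintype.card {j // j ∈ P.support} = P.support.card := Fintype.card_coe _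
  set a : {j // j ∈ P.support} → F := fun j => P.coeff j.1 with ha
  have ha0 : ∀ j, a j ≠ 0 := fun j => Polynomial.mem_support_iff.1 j.2
  have hr : 2 ≤ Fintype.card {j // j ∈ P.support} := by rw [hΛ]; exact hPr
  have hne : Sf a 0 ≠ Sf a 1 := by
    intro h
    have h1 := diff_sum ha0 (one_ne_zero (α := F)) fl
    unfold Sf at h
    rw [h, sub_self] at h1
    exact fl_ne hr h1.symm
  obtain ⟨b0, hb0⟩ : ∃ b0 : Bool, if b0 then Sf a 0 < Sf a 1 else Sf a 1 < Sf a 0 := by
    rcases lt_or_gt_of_ne hne with h | h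
    · exact ⟨true, by simpa using h⟩
    · exact ⟨false, by simpa using h⟩
  obtain ⟨C, hC0, hC⟩ := protocol ha0 hr b0 hb0 δ hδ hδ1
  set c : ℝ := Real.log (Fintype.card (∀ l, ZMod (p l))) with hc
  have hc0 : 0 ≤ c := Real.log_natCast_nonneg _
  refine ⟨C * (1 + c) ^ 2, by positivity, ?_⟩
  intro n K _ u v huv huS
  have hχ0 : ∀ s, χ s ≠ 0 := by
    intro s h
    have : χ (s + -s) = χ s * χ (-s) := AddChar.map_add_eq_mul χ _ _
    rw [h, zero_mul, add_neg_cancel, AddChar.map_zero_eq_one] at this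
    exact one_ne_zero this
  obtain ⟨k, hk, N, hN⟩ := hC (Fin n → Bool) (Fin n) (K → ∀ l, ZMod (p l))
    (fun i j => Equiv.addRight (j.1 • v i))
    (fun x w => ∑ j, if x j = !b0 then χ (∑ κ, u j κ * w κ) else 0) (fun x i => x i) (by
      intro x i w
      have h1 : ∑ j : {j // j ∈ P.support}, a j *
          (∑ i', if x i' = !b0 then χ (∑ κ, u i' κ * (Equiv.addRight (j.1 • v i) w) κ) else 0) =
          if x i = !b0 then χ (∑ κ, u i κ * w κ) * P.eval 1 else 0 := by
        have h2 : ∀ (j : {j // j ∈ P.support}) (i' : Fin n),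
            χ (∑ κ, u i' κ * (Equiv.addRight (j.1 • v i) w) κ) =
            χ (∑ κ, u i' κ * w κ) * χ (∑ κ, u i' κ * v i κ) ^ j.1 := by
          intro j i'
          rw [← AddChar.map_nsmul_eq_pow, ← AddChar.map_add_eq_mul]
          congr 1
          rw [Finset.smul_sum, ← Finset.sum_add_distrib]
          refine Finset.sum_congr rfl fun κ _ => ?_
          have h9 : (Equiv.addRight (j.1 • v i)) w κ = w κ + j.1 • v i κ := rfl
          rw [h9, mul_add, mul_smul_comm]
        simp only [h2, Finset.mul_sum]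
        rw [Finset.sum_comm]
        have h3 : ∀ i' : Fin n, ∑ j : {j // j ∈ P.support}, a j *
            (if x i' = !b0 then χ (∑ κ, u i' κ * w κ) * χ (∑ κ, u i' κ * v i κ) ^ j.1 else 0) =
            if x i' = !b0 then χ (∑ κ, u i' κ * w κ) * P.eval (χ (∑ κ, u i' κ * v i κ)) else 0 := by
          intro i'
          split_ifs with h
          · rw [Polynomial.eval_eq_sum, Polynomial.sum_def, Finset.mul_sum,
              ← Finset.sum_coe_sort P.support]
            refine Finset.sum_congr rfl fun j _ => ?_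
            simp only [ha]
            ring
          · simp
        simp only [h3]
        rw [Finset.sum_eq_single i]
        · rw [huv i, AddChar.map_zero_eq_one]
        · intro i' _ hi'
          rw [hPS _ (huS i i' (Ne.symm hi')), mul_zero, ite_self]
        · intro h; exact absurd (Finset.mem_univ _) h
      rw [h1]
      constructor
      · intro h2
        by_contra h3
        have h4 : x i = !b0 := by
          revert h3
          cases x i <;> cases b0 <;> simp
        rw [if_pos h4] at h2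
        exact (mul_ne_zero (hχ0 _) hP1) h2
      · intro h2
        rw [if_neg]
        rw [h2]
        cases b0 <;> simp)
  refine ⟨k, hk.trans ?_, N, hN⟩
  rw [mul_assoc, ← mul_pow]
  refine mul_le_mul_of_nonneg_left ?_ hC0
  have e1 : Real.log (Fintype.card (K → ∀ l, ZMod (p l))) = Fintype.card K * c := by
    rw [Fintype.card_fun, Nat.cast_pow, Real.log_pow]
  rw [e1]
  have hK : (0 : ℝ) ≤ Fintype.card K := Nat.cast_nonneg _
  refine pow_le_pow_left₀ (by positivity) ?_ 2
  nlinarith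

end Pool.Agent.Helper78.NX
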