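import Mathlib

/-!
One-way protocols with private coins whose output is a distribution on strings, and the
communication model 1-way NISZK.
-/

set_option autoImplicit false

namespace Pool.Agent.Helper78.NX

/-- A one-way protocol of cost `k`: on input `x` Alice sends a random string `m` of `k` bits,
which is `m` with probability `msg x m`; on input `y` and message `m`, Bob outputs a random string
of `k` bits, which is `z` with probability `out y m z`. -/
structure OneWay (X Y : Type) (k : ℕ) where
  msg : X → (Fin k → Bool) → ℝ
  out : Y → (Fin k → Bool) → (Fin k → Bool) → ℝ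
  msg_nonneg : ∀ x m, 0 ≤ msg x m
  msg_sum : ∀ x, ∑ m, msg x m = 1
  out_nonneg : ∀ y m z, 0 ≤ out y m z
  out_sum : ∀ y m, ∑ z, out y m z = 1

variable {X Y : Type} {k : ℕ}

/-- the probability that Bob outputs `z` on input `(x, y)` -/
noncomputable def OneWay.pr (N : OneWay X Y k) (x : X) (y : Y) (z : Fin k → Bool) : ℝ :=
  ∑ m, N.msg x m * N.out y m z

/-- the statistical distance of the output distribution on input `(x, y)` from uniform -/
noncomputable def OneWay.dist (N : OneWay X Y k) (x : X) (y : Y) : ℝ :=
  1 / 2 * ∑ z, |N.pr x y z - 1 / 2 ^ k|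

/-- `N` is a one-way NISZK protocol for `f` with error `δ`: on 1-inputs the output is within
distance `δ` of uniform, on 0-inputs it is at distance at least `1 - δ` from uniform. -/
def OneWay.Solves (N : OneWay X Y k) (δ : ℝ) (f : X → Y → Bool) : Prop :=
  ∀ x y, (f x y = true → N.dist x y ≤ δ) ∧ (f x y = false → 1 - δ ≤ N.dist x y)

end Pool.Agent.Helper78.NX
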