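import Pool.Agent.Helper78.NX.Code

/-!
One-way NISZK protocols for the index function.
-/

set_option autoImplicit false

namespace Pool.Agent.Helper78.NX

open Finset

theorem two_pow_le_choose (w : ℕ) (hw : 1 ≤ w) : 2 ^ w ≤ (2 * w).choose w := by
  have h1 := Nat.four_pow_le_two_mul_self_mul_centralBinom w hw
  have h2 : 2 * w ≤ 2 ^ w := by
    obtain ⟨v, rfl⟩ : ∃ v, w = v + 1 := ⟨w - 1, by omega⟩
    rw [pow_succ]
    have := Nat.lt_two_pow_self (n := v)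
    omega
  have h3 : 4 ^ w = 2 ^ w * 2 ^ w := by
    rw [← mul_pow]
    norm_num
  have h4 : 2 ^ w * 2 ^ w ≤ 2 ^ w * (2 * w).choose w := by
    calc 2 ^ w * 2 ^ w = 4 ^ w := h3.symm
      _ ≤ 2 * w * w.centralBinom := h1
      _ ≤ 2 ^ w * w.centralBinom := Nat.mul_le_mul_right _ h2
      _ = 2 ^ w * (2 * w).choose w := by rw [Nat.centralBinom_eq_two_mul_choose]
  exact Nat.le_of_mul_le_mul_left h4 (by positivity)

theorem clog_le (p y : ℕ) (hp : 1 < p) (hy : 1 ≤ y) : p ^ Nat.clog p y ≤ p * y := by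
  rcases Nat.lt_or_ge 1 y with h | h
  · have h1 := Nat.pow_pred_clog_lt_self (b := p) hp h
    have h2 : 0 < Nat.clog p y := Nat.clog_pos hp h
    obtain ⟨c, hc⟩ : ∃ c, Nat.clog p y = c + 1 := ⟨Nat.clog p y - 1, by omega⟩
    rw [hc] at h1 ⊢
    rw [pow_succ, mul_comm]
    exact Nat.mul_le_mul_left p h1.le
  · have : y = 1 := le_antisymm h hy
    subst this
    simp
    omega

/-- the combinatorial bound for the cost -/
theorem cost {t : ℕ} (ht : 0 < t) (δ : ℝ) (hδ : 0 < δ) (hδ1 : δ ≤ 1) :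
    ∃ (C : ℝ) (Q : ℕ), 0 ≤ C ∧ ∀ n w y : ℕ, 1 ≤ w → 1 ≤ y → n ≤ 2 ^ w → w < y ^ t →
      ∃ k : ℕ, (k : ℝ) ≤ C * (((2 * w + 1 : ℕ) : ℝ) ^ (Q * y)) ^ 2 ∧
        ∃ N : OneWay (Fin n → Bool) (Fin n) k, N.Solves δ fun x i => x i := by
  classical
  set p : Fin t → ℕ := fun l => Nat.nth Nat.Prime l with hpd
  have hp : ∀ l, (p l).Prime := fun l => Nat.prime_nth_prime l
  have hinj : Function.Injective p := by
    intro l l' h
    exact Fin.ext (Nat.nth_injective Nat.infinite_setOfPred_prime h)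
  obtain ⟨C, hC0, hC⟩ := code_prot ht hp hinj δ hδ hδ1
  refine ⟨4 * C, ∑ l, p l, by positivity, ?_⟩
  intro n w y hw hy hn hwy
  have hD : ∀ l, p l ^ Nat.clog (p l) y ≤ (∑ l, p l) * y := by
    intro l
    refine (clog_le _ _ (hp l).one_lt hy).trans (Nat.mul_le_mul_right y ?_)
    exact Finset.single_le_sum (f := p) (fun _ _ => Nat.zero_le _) (Finset.mem_univ l)
  have hprod : w < ∏ l, p l ^ Nat.clog (p l) y := by
    refine lt_of_lt_of_le hwy ?_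
    calc y ^ t = ∏ _l : Fin t, y := by simp
      _ ≤ ∏ l, p l ^ Nat.clog (p l) y :=
          Finset.prod_le_prod' fun l _ => Nat.le_pow_clog (hp l).one_lt y
  obtain ⟨K, _, u, v, hK, huv, huS⟩ := mv hp hinj (D := (∑ l, p l) * y) (n := n) (h := 2 * w) hD
    hprod (hn.trans (two_pow_le_choose w hw))
  obtain ⟨k, hk, N, hN⟩ := hC n K u v huv huS
  refine ⟨k, hk.trans ?_, N, hN⟩
  have h1 : (1 : ℝ) ≤ ((2 * w + 1 : ℕ) : ℝ) ^ ((∑ l, p l) * y) := by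
    apply one_le_pow₀
    push_cast
    have : (0 : ℝ) ≤ w := Nat.cast_nonneg w
    linarith
  have h2 : (Fintype.card K : ℝ) ≤ ((2 * w + 1 : ℕ) : ℝ) ^ ((∑ l, p l) * y) := by
    exact_mod_cast hK
  have h3 : (1 + (Fintype.card K : ℝ)) ^ 2 ≤
      (2 * ((2 * w + 1 : ℕ) : ℝ) ^ ((∑ l, p l) * y)) ^ 2 :=
    pow_le_pow_left₀ (by positivity) (by linarith) 2
  calc C * (1 + (Fintype.card K : ℝ)) ^ 2 ≤
      C * (2 * ((2 * w + 1 : ℕ) : ℝ) ^ ((∑ l, p l) * y)) ^ 2 :=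
        mul_le_mul_of_nonneg_left h3 hC0
    _ = _ := by ring

theorem index_aux (ε : ℝ) (hε : 0 < ε) (δ : ℝ) (hδ : 0 < δ) (hδ1 : δ ≤ 1) :
    ∃ C : ℝ, ∀ n : ℕ, 2 ≤ n → ∃ k : ℕ, (k : ℝ) ≤ C * Real.exp (Real.log n ^ ε) ∧
      ∃ N : OneWay (Fin n → Bool) (Fin n) k, N.Solves δ fun x i => x i := by
  obtain ⟨t, ht⟩ := exists_nat_gt (4 / ε)
  have ht0 : (0 : ℝ) < t := lt_trans (by positivity) ht
  have ht0' : 0 < t := by exact_mod_cast ht0
  have hte : 1 / (t : ℝ) ≤ ε / 4 := by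
    rw [div_le_div_iff₀ ht0 (by norm_num)]
    rw [div_lt_iff₀ hε] at ht
    linarith
  obtain ⟨C0, Q, hC0, H⟩ := cost ht0' δ hδ hδ1
  set c3 : ℝ := 2 * Q * 2 * ((3 : ℝ) ^ (ε / 4) / (ε / 4)) with hc3
  have hc30 : 0 ≤ c3 := by positivity
  refine ⟨C0 * Real.exp (c3 ^ 2 * (3 : ℝ) ^ ε / 4), ?_⟩
  intro n hn
  have hnr : (2 : ℝ) ≤ n := by exact_mod_cast hn
  set L := Real.log n with hL
  have hlog2 := Real.log_two_gt_d9
  have hlog2' := Real.log_two_lt_d9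
  have hL2 : Real.log 2 ≤ L := Real.log_le_log (by norm_num) hnr
  have hL0 : 0 < L := by linarith
  set w := Nat.log 2 n + 1 with hw
  have hw1 : 1 ≤ w := by omega
  have hwr : (1 : ℝ) ≤ w := by exact_mod_cast hw1
  have hnw : n ≤ 2 ^ w := (Nat.lt_pow_succ_log_self (by norm_num) n).le
  set U := 3 * L with hU
  have hU1 : 1 ≤ U := by rw [hU]; linarith
  have hU0 : 0 < U := by linarith
  have hwU : (w : ℝ) ≤ U := by
    have h1 : 2 ^ Nat.log 2 n ≤ n := Nat.pow_log_le_self 2 (by omega)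
    have h2 : ((2 : ℝ) ^ Nat.log 2 n) ≤ n := by exact_mod_cast h1
    have h3 := Real.log_le_log (by positivity) h2
    rw [Real.log_pow, ← hL] at h3
    have h4 : (w : ℝ) = (Nat.log 2 n : ℝ) + 1 := by rw [hw]; push_cast; ring
    rw [h4, hU]
    have h5 : (0 : ℝ) ≤ (Nat.log 2 n : ℝ) := Nat.cast_nonneg _
    nlinarith
  set x := (w : ℝ) ^ (1 / (t : ℝ)) with hx
  have hx1 : 1 ≤ x := Real.one_le_rpow hwr (by positivity)
  set y := ⌊x⌋₊ + 1 with hy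
  have hyx : x < (y : ℝ) := by
    rw [hy]; push_cast; exact Nat.lt_floor_add_one x
  have hyx2 : (y : ℝ) ≤ 2 * x := by
    have := Nat.floor_le (by linarith : (0 : ℝ) ≤ x)
    rw [hy]; push_cast; linarith
  have hwy : w < y ^ t := by
    have h1 : x ^ t = w := by
      rw [hx, ← Real.rpow_natCast, ← Real.rpow_mul (by linarith), one_div,
        inv_mul_cancel₀ ht0.ne', Real.rpow_one]
    have h2 : x ^ t < (y : ℝ) ^ t := pow_lt_pow_left₀ hyx (by linarith) (by omega)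
    rw [h1] at h2
    exact_mod_cast h2
  obtain ⟨k, hk, N, hN⟩ := H n w y hw1 (by omega) hnw hwy
  refine ⟨k, hk.trans ?_, N, hN⟩
  have hxU : x ≤ U ^ (ε / 4) := by
    calc x ≤ U ^ (1 / (t : ℝ)) := Real.rpow_le_rpow (by linarith) hwU (by positivity)
      _ ≤ U ^ (ε / 4) := Real.rpow_le_rpow_of_exponent_le hU1 hte
  have hlog : Real.log ((2 * w + 1 : ℕ) : ℝ) ≤ (3 : ℝ) ^ (ε / 4) / (ε / 4) * U ^ (ε / 4) := by
    have h1 : ((2 * w + 1 : ℕ) : ℝ) ≤ 3 * U := by push_cast; linarith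
    calc Real.log ((2 * w + 1 : ℕ) : ℝ) ≤ Real.log (3 * U) :=
          Real.log_le_log (by positivity) h1
      _ ≤ (3 * U) ^ (ε / 4) / (ε / 4) :=
          Real.log_le_rpow_div (by positivity) (by positivity)
      _ = _ := by rw [Real.mul_rpow (by norm_num) hU0.le]; ring
  have hUe : 0 ≤ U ^ (ε / 4) := Real.rpow_nonneg hU0.le _
  set z := U ^ (ε / 2) with hz
  have hzz : U ^ (ε / 4) * U ^ (ε / 4) = z := by
    rw [hz, ← Real.rpow_add hU0]; congr 1; ring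
  have hz2 : z ^ 2 = (3 : ℝ) ^ ε * L ^ ε := by
    rw [hz, ← Real.rpow_natCast, ← Real.rpow_mul hU0.le, hU, Real.mul_rpow (by norm_num) hL0.le]
    norm_num
  have hexp : (((2 * w + 1 : ℕ) : ℝ) ^ (Q * y)) ^ 2 =
      Real.exp (2 * (Q * y) * Real.log ((2 * w + 1 : ℕ) : ℝ)) := by
    rw [← pow_mul]
    have h1 : (0 : ℝ) < ((2 * w + 1 : ℕ) : ℝ) := by positivity
    rw [← Real.exp_log h1, ← Real.exp_nat_mul, Real.exp_log h1]
    congr 1
    push_cast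
    ring
  have hl0 : 0 ≤ Real.log ((2 * w + 1 : ℕ) : ℝ) := Real.log_natCast_nonneg _
  have hmain : 2 * (Q * y) * Real.log ((2 * w + 1 : ℕ) : ℝ) ≤ c3 * z := by
    have h1 : (y : ℝ) ≤ 2 * U ^ (ε / 4) := by linarith
    calc 2 * (Q * y) * Real.log ((2 * w + 1 : ℕ) : ℝ) ≤
        2 * (Q * (2 * U ^ (ε / 4))) * ((3 : ℝ) ^ (ε / 4) / (ε / 4) * U ^ (ε / 4)) := by
          refine mul_le_mul ?_ hlog hl0 (by positivity)
          refine mul_le_mul_of_nonneg_left ?_ (by norm_num)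
          exact mul_le_mul_of_nonneg_left h1 (Nat.cast_nonneg _)
      _ = c3 * (U ^ (ε / 4) * U ^ (ε / 4)) := by rw [hc3]; ring
      _ = c3 * z := by rw [hzz]
  have h3e : (0 : ℝ) < 3 ^ ε := Real.rpow_pos_of_pos (by norm_num) _
  have hfin : c3 * z ≤ L ^ ε + c3 ^ 2 * (3 : ℝ) ^ ε / 4 := by
    have h1 : L ^ ε = z ^ 2 / 3 ^ ε := by rw [hz2]; field_simp
    rw [h1]
    have h2 : z ^ 2 / 3 ^ ε + c3 ^ 2 * (3 : ℝ) ^ ε / 4 - c3 * z =
        (z - c3 * 3 ^ ε / 2) ^ 2 / 3 ^ ε := by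
      field_simp
      ring
    have h3 : 0 ≤ (z - c3 * 3 ^ ε / 2) ^ 2 / 3 ^ ε := by positivity
    linarith
  rw [hexp]
  calc C0 * Real.exp (2 * (Q * y) * Real.log ((2 * w + 1 : ℕ) : ℝ)) ≤
      C0 * Real.exp (L ^ ε + c3 ^ 2 * (3 : ℝ) ^ ε / 4) := by
        refine mul_le_mul_of_nonneg_left (Real.exp_le_exp.2 ?_) hC0
        linarith
    _ = _ := by rw [Real.exp_add]; ring

theorem index (ε : ℝ) (hε : 0 < ε) (δ : ℝ) (hδ : 0 < δ) :
    ∃ C : ℝ, ∀ n : ℕ, 2 ≤ n → ∃ k : ℕ, (k : ℝ) ≤ C * Real.exp (Real.log n ^ ε) ∧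
      ∃ N : OneWay (Fin n → Bool) (Fin n) k, N.Solves δ fun x i => x i := by
  obtain ⟨C, hC⟩ := index_aux ε hε (min δ 1) (lt_min hδ one_pos) (min_le_right _ _)
  refine ⟨C, fun n hn => ?_⟩
  obtain ⟨k, hk, N, hN⟩ := hC n hn
  refine ⟨k, hk, N, fun x y => ⟨fun h => ?_, fun h => ?_⟩⟩
  · exact ((hN x y).1 h).trans (min_le_left _ _)
  · have := (hN x y).2 h
    have := min_le_left δ 1
    linarith

end Pool.Agent.Helper78.NX
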