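import Pool.Agent.Helper78.NX.Amp
import Pool.Agent.Helper78.NX.Cnt

/-!
From smooth linear codes to protocols.
-/

set_option autoImplicit false
set_option linter.unusedSectionVars false

namespace Pool.Agent.Helper78.NX

open Finset

variable {F Λ : Type} [Field F] [Fintype F] [DecidableEq F] [Fintype Λ] [DecidableEq Λ]

/-- sum of `k log k` -/
noncomputable def Sf (a : Λ → F) (c : F) : ℝ := ∑ E ∈ Hp a c, fl (zc E).card

/-- the normalisation -/
noncomputable def kap (a : Λ → F) : ℝ :=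
  (Fintype.card F : ℝ) / (Fintype.card Λ * (Hp a 0).card)

theorem sum_fl_le {a : Λ → F} (ha : ∀ j, a j ≠ 0) (hr : 2 ≤ Fintype.card Λ) (c : F) :
    kap a * Sf a c ≤ Real.log (Fintype.card Λ) := by
  unfold kap Sf
  have hF : (0 : ℝ) < Fintype.card F := by exact_mod_cast Fintype.card_pos
  have hΛ : (0 : ℝ) < Fintype.card Λ := by
    have : 0 < Fintype.card Λ := by omega
    exact_mod_cast this
  have hH : (0 : ℝ) < (Hp a 0).card := by exact_mod_cast Hp_pos a
  have h1 : ∑ E ∈ Hp a c, fl (zc E).card ≤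
      Real.log (Fintype.card Λ) * ∑ E ∈ Hp a c, ((zc E).card : ℝ) := by
    rw [Finset.mul_sum]
    refine Finset.sum_le_sum fun E _ => ?_
    unfold fl
    rw [mul_comm]
    refine mul_le_mul_of_nonneg_right ?_ (Nat.cast_nonneg _)
    rcases Nat.eq_zero_or_pos (zc E).card with h | h
    · rw [h]
      simpa using Real.log_natCast_nonneg (Fintype.card Λ)
    · refine Real.log_le_log (by exact_mod_cast h) ?_
      exact_mod_cast Finset.card_le_univ _
  have h2 : (∑ E ∈ Hp a c, ((zc E).card : ℝ)) * Fintype.card F =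
      Fintype.card Λ * (Hp a 0).card := by
    have := sum_zc ha hr c
    exact_mod_cast this
  rw [div_mul_eq_mul_div, div_le_iff₀ (by positivity), ← h2]
  calc _ ≤ (Fintype.card F : ℝ) *
        (Real.log (Fintype.card Λ) * ∑ E ∈ Hp a c, ((zc E).card : ℝ)) :=
        mul_le_mul_of_nonneg_left h1 hF.le
    _ = _ := by ring

/-- Alice -/
noncomputable def ka {V : Type} [Fintype V] (C : V → F) (p : V × F) : ℝ :=
  if p.2 = C p.1 then 1 / Fintype.card V else 0

/-- Bob -/
noncomputable def kb {V : Type} [DecidableEq V] (a : Λ → F) (sh : Λ → V ≃ V) (p : V × F)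
    (z : V × {E // E ∈ Hp a 0}) : ℝ :=
  kap a * ∑ j, if sh j z.1 = p.1 ∧ z.2.1 j = -p.2 then 1 else 0

/-- the number of ways -/
def Nw {V : Type} (a : Λ → F) (sh : Λ → V ≃ V) (C : V → F) (z : V × {E // E ∈ Hp a 0}) : ℕ :=
  (zc (z.2.1 + fun j => C (sh j z.1))).card

theorem kap_pos {a : Λ → F} (hr : 2 ≤ Fintype.card Λ) : 0 < kap a := by
  unfold kap
  have hF : (0 : ℝ) < Fintype.card F := by exact_mod_cast Fintype.card_pos
  have hΛ : (0 : ℝ) < Fintype.card Λ := by
    have : 0 < Fintype.card Λ := by omega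
    exact_mod_cast this
  have hH : (0 : ℝ) < (Hp a 0).card := by exact_mod_cast Hp_pos a
  positivity

theorem ka_nonneg {V : Type} [Fintype V] (C : V → F) (p : V × F) : 0 ≤ ka C p := by
  unfold ka
  split_ifs <;> positivity

theorem ka_sum {V : Type} [Fintype V] [Nonempty V] (C : V → F) : ∑ p, ka C p = 1 := by
  unfold ka
  rw [Fintype.sum_prod_type]
  simp only [Finset.sum_ite_eq', Finset.mem_univ, if_true]
  rw [Finset.sum_const, Finset.card_univ, nsmul_eq_mul]
  field_simp

theorem kb_nonneg {V : Type} [DecidableEq V] (a : Λ → F) (hr : 2 ≤ Fintype.card Λ)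
    (sh : Λ → V ≃ V) (p : V × F) (z : V × {E // E ∈ Hp a 0}) : 0 ≤ kb a sh p z := by
  unfold kb
  refine mul_nonneg (kap_pos hr).le (Finset.sum_nonneg fun j _ => ?_)
  split_ifs <;> norm_num

theorem kb_sum {V : Type} [Fintype V] [DecidableEq V] {a : Λ → F} (ha : ∀ j, a j ≠ 0)
    (hr : 2 ≤ Fintype.card Λ) (sh : Λ → V ≃ V) (p : V × F) : ∑ z, kb a sh p z = 1 := by
  have hF : (0 : ℝ) < Fintype.card F := by exact_mod_cast Fintype.card_pos
  have hΛ : (0 : ℝ) < Fintype.card Λ := by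
    have : 0 < Fintype.card Λ := by omega
    exact_mod_cast this
  have hH : (0 : ℝ) < (Hp a 0).card := by exact_mod_cast Hp_pos a
  unfold kb
  rw [← Finset.mul_sum, Finset.sum_comm]
  have h1 : ∀ j, ∑ z : V × {E // E ∈ Hp a 0},
      (if sh j z.1 = p.1 ∧ z.2.1 j = -p.2 then (1 : ℝ) else 0) =
      (Hp a 0).card / Fintype.card F := by
    intro j
    rw [Fintype.sum_prod_type, Finset.sum_eq_single ((sh j).symm p.1)]
    · simp only [Equiv.apply_symm_apply, true_and]
      have h2 := fib ha hr 0 (-p.2) j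
      rw [eq_div_iff hF.ne', ← h2]
      push_cast
      congr 1
      rw [Finset.sum_coe_sort (Hp a 0) (fun E => if E j = -p.2 then (1 : ℝ) else 0),
        Finset.sum_boole]
    · intro w _ hw
      refine Finset.sum_eq_zero fun z _ => ?_
      rw [if_neg]
      rintro ⟨h, -⟩
      exact hw (by rw [← h, Equiv.symm_apply_apply])
    · intro h; exact absurd (Finset.mem_univ _) h
  simp only [h1]
  rw [Finset.sum_const, Finset.card_univ, nsmul_eq_mul, kap]
  field_simp

theorem kab {V : Type} [Fintype V] [DecidableEq V] [Nonempty V] {a : Λ → F}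
    (hr : 2 ≤ Fintype.card Λ) (sh : Λ → V ≃ V) (C : V → F) (z : V × {E // E ∈ Hp a 0}) :
    ∑ p, ka C p * kb a sh p z = Nw a sh C z / (Fintype.card V / kap a) := by
  have hk := kap_pos (a := a) hr
  rw [Fintype.sum_prod_type]
  simp only [ka, kb, ite_mul, zero_mul, Finset.sum_ite_eq', Finset.mem_univ, if_true]
  rw [← Finset.mul_sum, ← Finset.mul_sum, Finset.sum_comm]
  have h1 : ∀ j, ∑ w, (if sh j z.1 = w ∧ z.2.1 j = -C w then (1 : ℝ) else 0) =
      if z.2.1 j + C (sh j z.1) = 0 then 1 else 0 := by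
    intro j
    rw [Finset.sum_eq_single (sh j z.1)]
    · simp only [true_and]
      congr 1
      rw [eq_iff_iff]
      exact eq_neg_iff_add_eq_zero
    · intro w _ hw
      rw [if_neg]
      rintro ⟨h, -⟩
      exact hw h.symm
    · intro h; exact absurd (Finset.mem_univ _) h
  simp only [h1]
  rw [Finset.sum_boole]
  have h2 : (Nw a sh C z : ℝ) = ((univ.filter fun j => z.2.1 j + C (sh j z.1) = 0).card : ℝ) := by
    simp only [Nw, zc, Pi.add_apply]
  rw [h2]
  field_simp

theorem ent {V : Type} [Fintype V] [Nonempty V] {a : Λ → F} (hr : 2 ≤ Fintype.card Λ)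
    (sh : Λ → V ≃ V) (C : V → F) (s : ℝ) (hs : ∀ w, Sf a (∑ j, a j * C (sh j w)) = s) :
    ∑ z, (Nw a sh C z : ℝ) / (Fintype.card V / kap a) * Real.log (Nw a sh C z) = kap a * s := by
  have hk := kap_pos (a := a) hr
  have h1 : ∀ w : V, ∑ E : {E // E ∈ Hp a 0},
      (Nw a sh C (w, E) : ℝ) * Real.log (Nw a sh C (w, E)) = s := by
    intro w
    have h2 := shift_sum a (fun j => C (sh j w)) fl
    have h3 : ∑ E : {E // E ∈ Hp a 0}, (Nw a sh C (w, E) : ℝ) * Real.log (Nw a sh C (w, E)) =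
        ∑ E ∈ Hp a 0, fl (zc (E + fun j => C (sh j w))).card := by
      rw [← Finset.sum_coe_sort (Hp a 0)]
      rfl
    rw [h3, h2, ← hs w]
    rfl
  rw [Fintype.sum_prod_type]
  simp only [div_mul_eq_mul_div]
  simp only [← Finset.sum_div]
  simp only [h1]
  rw [Finset.sum_const, Finset.card_univ, nsmul_eq_mul]
  field_simp

theorem protocol {a : Λ → F} (ha : ∀ j, a j ≠ 0) (hr : 2 ≤ Fintype.card Λ) (b0 : Bool)
    (hb : if b0 then Sf a 0 < Sf a 1 else Sf a 1 < Sf a 0)
    (δ : ℝ) (hδ : 0 < δ) (hδ1 : δ ≤ 1) :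
    ∃ C : ℝ, 0 ≤ C ∧ ∀ (X Y V : Type) [Fintype V] [DecidableEq V] [Nonempty V]
      (sh : Y → Λ → V ≃ V) (Cw : X → V → F) (f : X → Y → Bool),
      (∀ x y w, ∑ j, a j * Cw x (sh y j w) = 0 ↔ f x y = b0) →
      ∃ k : ℕ, (k : ℝ) ≤ C * (1 + Real.log (Fintype.card V)) ^ 2 ∧
        ∃ P : OneWay X Y k, P.Solves δ f := by
  classical
  have hF : (0 : ℝ) < Fintype.card F := by exact_mod_cast Fintype.card_pos
  have hΛn : 0 < Fintype.card Λ := by omega
  have hΛ : (0 : ℝ) < Fintype.card Λ := by exact_mod_cast hΛn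
  have hH : (0 : ℝ) < (Hp a 0).card := by exact_mod_cast Hp_pos a
  have hκ0 := kap_pos (a := a) hr
  obtain ⟨G, hGd⟩ : ∃ G : Bool → ℝ, ∀ b, G b = kap a * (if b = b0 then Sf a 0 else Sf a 1) :=
    ⟨_, fun b => rfl⟩
  have hS1 : ∀ c : F, c ≠ 0 → Sf a c = Sf a 1 := by
    intro c hc
    have h1 := diff_sum ha hc fl
    have h2 := diff_sum ha (one_ne_zero (α := F)) fl
    unfold Sf
    linarith
  have hgap : G true < G false := by
    rw [hGd, hGd]
    refine mul_lt_mul_of_pos_left ?_ hκ0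
    cases b0
    · simpa using hb
    · simpa using hb
  have hG : G false ≤ Real.log (Fintype.card Λ) := by
    rw [hGd]
    split_ifs
    · exact sum_fl_le ha hr 0
    · exact sum_fl_le ha hr 1
  obtain ⟨C, hC0, hC⟩ := amplify (Fintype.card Λ) hΛn G hgap hG δ hδ hδ1
  obtain ⟨c0, hc0⟩ : ∃ c0 : ℝ, c0 = Real.log (Fintype.card F) + 2 * Real.log ((Hp a 0).card) +
    Real.log (Fintype.card Λ) := ⟨_, rfl⟩
  have hlF : 0 ≤ Real.log (Fintype.card F) := Real.log_natCast_nonneg _
  have hlH : 0 ≤ Real.log ((Hp a 0).card : ℝ) := Real.log_natCast_nonneg _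
  have hlr : 0 ≤ Real.log (Fintype.card Λ : ℝ) := Real.log_natCast_nonneg _
  refine ⟨C * (3 + c0) ^ 2, by positivity, ?_⟩
  intro X Y V _ _ _ sh Cw f hf
  have hV : (0 : ℝ) < Fintype.card V := by exact_mod_cast Fintype.card_pos
  have hlV : 0 ≤ Real.log (Fintype.card V) := Real.log_natCast_nonneg _
  have hMeq : (Fintype.card V : ℝ) / kap a =
      Fintype.card Λ * Fintype.card V * (Hp a 0).card / Fintype.card F := by
    rw [kap, div_div_eq_mul_div]
    ring
  have hHF : (Fintype.card F : ℝ) ≤ (Hp a 0).card := by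
    obtain ⟨j⟩ : Nonempty Λ := Fintype.card_pos_iff.1 hΛn
    have h1 := fib ha hr 0 0 j
    have h2 : 0 < ((Hp a 0).filter fun E => E j = 0).card :=
      Finset.card_pos.2 ⟨0, by rw [Finset.mem_filter, mem_Hp]; simp⟩
    have h3 : Fintype.card F ≤ (Hp a 0).card := by
      rw [← h1]
      exact Nat.le_mul_of_pos_left _ h2
    exact_mod_cast h3
  have hV1 : (1 : ℝ) ≤ Fintype.card V := by exact_mod_cast Fintype.card_pos (α := V)
  have hMr : (Fintype.card Λ : ℝ) ≤ (Fintype.card V : ℝ) / kap a := by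
    rw [hMeq, le_div_iff₀ hF]
    have : (Fintype.card F : ℝ) ≤ Fintype.card V * (Hp a 0).card := by nlinarith
    nlinarith
  have hne : Nonempty {E // E ∈ Hp a 0} := ⟨⟨0, by rw [mem_Hp]; simp⟩⟩
  obtain ⟨k, hk, P, hP⟩ := hC X Y (V × F) (V × {E // E ∈ Hp a 0}) ((Fintype.card V : ℝ) / kap a)
    hMr (fun x => ka (Cw x)) (fun y => kb a (sh y)) (fun x => ka_nonneg _) (fun x => ka_sum _)
    (fun y => kb_nonneg a hr _) (fun y => kb_sum ha hr _) f (fun x y => Nw a (sh y) (Cw x))
    (fun x y z => kab hr _ _ z) (fun x y z => Finset.card_le_univ _)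
    (fun x y => by
      rw [hGd]
      refine ent hr _ _ _ fun w => ?_
      split_ifs with h
      · rw [(hf x y w).2 h]
      · exact hS1 _ fun h' => h ((hf x y w).1 h'))
  refine ⟨k, hk.trans ?_, P, hP⟩
  rw [mul_assoc, ← mul_pow]
  refine mul_le_mul_of_nonneg_left ?_ hC0
  refine pow_le_pow_left₀ ?_ ?_ 2
  · have e1 : 0 ≤ Real.log (Fintype.card (V × F)) := Real.log_natCast_nonneg _
    have e2 : 0 ≤ Real.log (Fintype.card (V × {E // E ∈ Hp a 0})) := Real.log_natCast_nonneg _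
    have e3 : 0 ≤ Real.log ((Fintype.card V : ℝ) / kap a) :=
      Real.log_nonneg (le_trans (by exact_mod_cast hΛn) hMr)
    linarith
  · have e1 : Real.log (Fintype.card (V × F)) =
        Real.log (Fintype.card V) + Real.log (Fintype.card F) := by
      rw [Fintype.card_prod, Nat.cast_mul, Real.log_mul hV.ne' hF.ne']
    have e2 : Real.log (Fintype.card (V × {E // E ∈ Hp a 0})) =
        Real.log (Fintype.card V) + Real.log ((Hp a 0).card) := by
      rw [Fintype.card_prod, Fintype.card_coe, Nat.cast_mul, Real.log_mul hV.ne' hH.ne']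
    have e3 : Real.log ((Fintype.card V : ℝ) / kap a) ≤
        Real.log (Fintype.card Λ) + Real.log (Fintype.card V) + Real.log ((Hp a 0).card) := by
      rw [hMeq, Real.log_div (mul_pos (mul_pos hΛ hV) hH).ne' hF.ne',
        Real.log_mul (mul_pos hΛ hV).ne' hH.ne', Real.log_mul hΛ.ne' hV.ne']
      linarith
    rw [e1, e2, hc0]
    nlinarith

end Pool.Agent.Helper78.NX
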