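import Pool.Agent.Helper78.NX.Def

/-!
From samplers on finite types to one-way protocols on strings.
-/

set_option autoImplicit false

namespace Pool.Agent.Helper78.NX

open Finset

theorem transfer {X Y A O : Type} [Fintype A] [Fintype O] [DecidableEq A] {k k' : ℕ}
    (hA : Fintype.card A ≤ 2 ^ k) (hO : Fintype.card O = 2 ^ k') (hk : k' ≤ k)
    (α : X → A → ℝ) (β : Y → A → O → ℝ) (α0 : ∀ x a, 0 ≤ α x a) (α1 : ∀ x, ∑ a, α x a = 1)
    (β0 : ∀ y a o, 0 ≤ β y a o) (β1 : ∀ y a, ∑ o, β y a o = 1) (δ : ℝ) (f : X → Y → Bool)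
    (h1 : ∀ x y, f x y = true → 1 / 2 * ∑ o, |∑ a, α x a * β y a o - 1 / 2 ^ k'| ≤ δ)
    (h0 : ∀ x y, f x y = false → 1 - δ ≤ 1 / 2 * ∑ o, |∑ a, α x a * β y a o - 1 / 2 ^ k'|) :
    ∃ N : OneWay X Y k, N.Solves δ f := by
  classical
  have hcard : Fintype.card (Fin k → Bool) = 2 ^ k := by simp
  obtain ⟨e⟩ : Nonempty (A ↪ (Fin k → Bool)) :=
    Function.Embedding.nonempty_of_card_le (by rw [hcard]; exact hA)
  have hcard2 : Fintype.card (Fin k → Bool) = Fintype.card (O × (Fin (k - k') → Bool)) := by
    rw [hcard, Fintype.card_prod, hO]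
    simp only [Fintype.card_pi, Fintype.card_bool, Finset.prod_const, Finset.card_univ,
      Fintype.card_fin]
    rw [← pow_add]
    congr 1
    omega
  let u : (Fin k → Bool) ≃ O × (Fin (k - k') → Bool) := Fintype.equivOfCardEq hcard2
  let msg : X → (Fin k → Bool) → ℝ := fun x m => ∑ a, if e a = m then α x a else 0
  let out : Y → (Fin k → Bool) → (Fin k → Bool) → ℝ := fun y m z =>
    if h : ∃ a, e a = m then β y h.choose (u z).1 / 2 ^ (k - k') else 1 / 2 ^ k
  have hout : ∀ y a z, out y (e a) z = β y a (u z).1 / 2 ^ (k - k') := by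
    intro y a z
    have h : ∃ a', e a' = e a := ⟨a, rfl⟩
    have h2 : h.choose = a := e.injective h.choose_spec
    simp only [out]
    rw [dif_pos h, h2]
  have hsumu : ∀ g : O → ℝ, ∑ z, g (u z).1 / 2 ^ (k - k') = ∑ o, g o := by
    intro g
    rw [Equiv.sum_comp u (fun p => g p.1 / 2 ^ (k - k')), Fintype.sum_prod_type]
    refine Finset.sum_congr rfl fun o _ => ?_
    simp only [Finset.sum_const, Finset.card_univ, Fintype.card_pi, Fintype.card_bool,
      Finset.prod_const, Fintype.card_fin, nsmul_eq_mul]
    push_cast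
    field_simp
  let N : OneWay X Y k :=
    { msg := msg
      out := out
      msg_nonneg := by
        intro x m
        refine Finset.sum_nonneg fun a _ => ?_
        split_ifs
        · exact α0 x a
        · exact le_rfl
      msg_sum := by
        intro x
        simp only [msg]
        rw [Finset.sum_comm]
        rw [← α1 x]
        refine Finset.sum_congr rfl fun a _ => ?_
        simp
      out_nonneg := by
        intro y m z
        simp only [out]
        split_ifs with h
        · exact div_nonneg (β0 _ _ _) (by positivity)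
        · positivity
      out_sum := by
        intro y m
        by_cases h : ∃ a, e a = m
        · obtain ⟨a, rfl⟩ := h
          simp only [hout]
          rw [hsumu, β1]
        · simp only [out]
          simp only [dif_neg h, Finset.sum_const, Finset.card_univ, hcard, nsmul_eq_mul]
          push_cast
          field_simp }
  have hpr : ∀ x y z, N.pr x y z = (∑ a, α x a * β y a (u z).1) / 2 ^ (k - k') := by
    intro x y z
    change ∑ m, (∑ a, if e a = m then α x a else 0) * out y m z = _
    simp only [Finset.sum_mul]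
    rw [Finset.sum_comm, Finset.sum_div]
    refine Finset.sum_congr rfl fun a _ => ?_
    simp only [ite_mul, zero_mul, Finset.sum_ite_eq, Finset.mem_univ, if_true]
    rw [hout]
    ring
  have hdist : ∀ x y, N.dist x y = 1 / 2 * ∑ o, |∑ a, α x a * β y a o - 1 / 2 ^ k'| := by
    intro x y
    unfold OneWay.dist
    congr 1
    rw [← hsumu]
    refine Finset.sum_congr rfl fun z _ => ?_
    rw [hpr]
    have e1 : (1 : ℝ) / 2 ^ k = 1 / 2 ^ k' / 2 ^ (k - k') := by
      rw [div_div, ← pow_add]
      congr 2
      omega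
    rw [e1, ← sub_div, abs_div]
    congr 1
    exact abs_of_pos (by positivity)
  refine ⟨N, fun x y => ⟨fun h => ?_, fun h => ?_⟩⟩
  · rw [hdist]; exact h1 x y h
  · rw [hdist]; exact h0 x y h

end Pool.Agent.Helper78.NX
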